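import Mathlib

/-!
# Extended Frege with counting gates modulo `m` (definitions)
-/

set_option autoImplicit false

namespace Pool.Agent.Lib.MP_e81270_lc_Mod

open FirstOrder

/-- Propositional formulas with variables from `V`, built by negation, disjunction of any arity and
counting gates modulo `m` of any arity. The constant `false` is the empty disjunction. The gate
`mod k c f a` says that the sum of the weights `c i` over all `i` for which `f i` is true is `a`
modulo `m`. -/
inductive Fm (m : ℕ) (V : Type) : Type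
  | var : V → Fm m V
  | neg : Fm m V → Fm m V
  | or : (k : ℕ) → (Fin k → Fm m V) → Fm m V
  | mod : (k : ℕ) → (Fin k → ZMod m) → (Fin k → Fm m V) → ZMod m → Fm m V

/-- The size of a formula: its number of variable occurrences and gates. -/
def Fm.size {m : ℕ} {V : Type} : Fm m V → ℕ
  | .var _ => 1
  | .neg A => 1 + A.size
  | .or _ f => 1 + ∑ i, (f i).size
  | .mod _ _ f _ => 1 + ∑ i, (f i).size

/-- Rename the variables. -/
def Fm.rename {m : ℕ} {V W : Type} (h : V → W) : Fm m V → Fm m W
  | .var x => .var (h x)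
  | .neg A => .neg (A.rename h)
  | .or k f => .or k fun i => (f i).rename h
  | .mod k c f a => .mod k c (fun i => (f i).rename h) a

/-- One step of a refutation of the formula `Ax` with the extension definitions `D`. The
variables are those of `Ax` (in `V`) and the extension variables `0, ..., e - 1`. A line is a list
of formulas, read as their disjunction; `prev` is the set of earlier lines.

The axioms and rules of Extended Frege are `Ax`, the two halves of each equivalence between an
extension variable `i` and `D i`, the excluded middle, weakening (with permutation and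
contraction), cut, introduction of a disjunction, of a negated disjunction, and of a double
negation.

For the counting gates: the sum over no formula is `0`; the sum over one formula; the sum has one
of the values `0, ..., m - 1`; it does not have two values; for `k < m` formulas with weights `1`
it has one of the values `0, ..., k`; the sum over two families is the sum of the two sums; equivalent formulas may be replaced (and reordered); and the sum over the union of
several families is the sum of the values of their sums (each value `b` of the family `i` is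
counted by the gate `mod (l i) (c i) (f i) b` with weight `b`). -/
inductive Step {m : ℕ} {V : Type} {e : ℕ} (Ax : Fm m V) (D : Fin e → Fm m (V ⊕ Fin e))
    (prev : Set (List (Fm m (V ⊕ Fin e)))) : List (Fm m (V ⊕ Fin e)) → Prop
  | ax : Step Ax D prev [Ax.rename .inl]
  | extLeft (i : Fin e) : Step Ax D prev [.neg (.var (.inr i)), D i]
  | extRight (i : Fin e) : Step Ax D prev [.var (.inr i), .neg (D i)]
  | middle (A : Fm m (V ⊕ Fin e)) : Step Ax D prev [A, .neg A]
  | weak {Γ Δ : List (Fm m (V ⊕ Fin e))} : Γ ∈ prev → Γ ⊆ Δ → Step Ax D prev Δ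
  | cut {A : Fm m (V ⊕ Fin e)} {Γ : List (Fm m (V ⊕ Fin e))} :
      A :: Γ ∈ prev → .neg A :: Γ ∈ prev → Step Ax D prev Γ
  | orIntro {k : ℕ} {f : Fin k → Fm m (V ⊕ Fin e)} {Γ : List (Fm m (V ⊕ Fin e))} (i : Fin k) :
      f i :: Γ ∈ prev → Step Ax D prev (.or k f :: Γ)
  | norIntro {k : ℕ} {f : Fin k → Fm m (V ⊕ Fin e)} {Γ : List (Fm m (V ⊕ Fin e))} :
      (∀ i, .neg (f i) :: Γ ∈ prev) → Step Ax D prev (.neg (.or k f) :: Γ)
  | dneg {A : Fm m (V ⊕ Fin e)} {Γ : List (Fm m (V ⊕ Fin e))} :
      A :: Γ ∈ prev → Step Ax D prev (.neg (.neg A) :: Γ)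
  | modZero (c : Fin 0 → ZMod m) (f : Fin 0 → Fm m (V ⊕ Fin e)) :
      Step Ax D prev [.mod 0 c f 0]
  | modTrue (c : ZMod m) (A : Fm m (V ⊕ Fin e)) :
      Step Ax D prev [.neg A, .mod 1 (fun _ => c) (fun _ => A) c]
  | modFalse (c : ZMod m) (A : Fm m (V ⊕ Fin e)) :
      Step Ax D prev [A, .mod 1 (fun _ => c) (fun _ => A) 0]
  | modValue (k : ℕ) (c : Fin k → ZMod m) (f : Fin k → Fm m (V ⊕ Fin e)) :
      Step Ax D prev (List.ofFn fun a : Fin m => .mod k c f (a : ℕ))
  | modUnique (k : ℕ) (c : Fin k → ZMod m) (f : Fin k → Fm m (V ⊕ Fin e)) {a b : ZMod m} :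
      a ≠ b → Step Ax D prev [.neg (.mod k c f a), .neg (.mod k c f b)]
  | modRange (k : ℕ) (f : Fin k → Fm m (V ⊕ Fin e)) : k < m →
      Step Ax D prev (List.ofFn fun a : Fin (k + 1) => .mod k (fun _ => 1) f (a : ℕ))
  | modAdd {k l j : ℕ} (σ : Fin j ≃ Fin k ⊕ Fin l) (c : Fin k → ZMod m) (d : Fin l → ZMod m)
      (f : Fin k → Fm m (V ⊕ Fin e)) (g : Fin l → Fm m (V ⊕ Fin e)) (a b : ZMod m) :
      Step Ax D prev [.neg (.mod k c f a), .neg (.mod l d g b),
        .mod j (fun x => Sum.elim c d (σ x)) (fun x => Sum.elim f g (σ x)) (a + b)]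
  | modReplace {k l : ℕ} (σ : Fin k ≃ Fin l) (c : Fin l → ZMod m)
      {f : Fin k → Fm m (V ⊕ Fin e)} {g : Fin l → Fm m (V ⊕ Fin e)} (a : ZMod m)
      {Γ : List (Fm m (V ⊕ Fin e))} :
      (∀ i, .neg (f i) :: g (σ i) :: Γ ∈ prev) → (∀ i, f i :: .neg (g (σ i)) :: Γ ∈ prev) →
      Step Ax D prev (.neg (.mod k (fun i => c (σ i)) f a) :: .mod l c g a :: Γ)
  | modSum {k j j' : ℕ} {l : Fin k → ℕ} (σ : Fin j ≃ Σ i, Fin (l i))
      (τ : Fin j' ≃ Fin k × Fin m) (c : (i : Fin k) → Fin (l i) → ZMod m)
      (f : (i : Fin k) → Fin (l i) → Fm m (V ⊕ Fin e)) (a : ZMod m) :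
      Step Ax D prev [
        .neg (.mod j (fun x => c (σ x).1 (σ x).2) (fun x => f (σ x).1 (σ x).2) a),
        .mod j' (fun y => ((τ y).2 : ℕ))
          (fun y => .mod (l (τ y).1) (c (τ y).1) (f (τ y).1) ((τ y).2 : ℕ)) a]

/-- The lines of `P`, from the last to the first, form a derivation: every line follows from the
earlier ones by one step. -/
inductive IsDerivation {m : ℕ} {V : Type} {e : ℕ} (Ax : Fm m V)
    (D : Fin e → Fm m (V ⊕ Fin e)) : List (List (Fm m (V ⊕ Fin e))) → Prop
  | nil : IsDerivation Ax D []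
  | cons {P : List (List (Fm m (V ⊕ Fin e)))} {Γ : List (Fm m (V ⊕ Fin e))} :
      IsDerivation Ax D P → Step Ax D {Δ | Δ ∈ P} Γ → IsDerivation Ax D (Γ :: P)

/-- An Extended Frege refutation of `Ax` with counting gates modulo `m`: a derivation which
contains the empty line. -/
def IsRefutation {m : ℕ} {V : Type} {e : ℕ} (Ax : Fm m V) (D : Fin e → Fm m (V ⊕ Fin e))
    (P : List (List (Fm m (V ⊕ Fin e)))) : Prop :=
  IsDerivation Ax D P ∧ [] ∈ P

/-- The number of lines plus the sizes of all formulas in them. -/
def totalSize {m : ℕ} {W : Type} (P : List (List (Fm m W))) : ℕ :=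
  (P.map fun Γ => 1 + (Γ.map Fm.size).sum).sum

/-- Replace the extension variables by the formulas `E i`. -/
def subst {m : ℕ} {V : Type} {e : ℕ} (E : Fin e → Fm m V) : Fm m (V ⊕ Fin e) → Fm m V
  | .var (.inl x) => .var x
  | .var (.inr i) => E i
  | .neg A => .neg (subst E A)
  | .or k f => .or k fun i => subst E (f i)
  | .mod k c f a => .mod k c (fun i => subst E (f i)) a

/-- A line as a formula: the disjunction of its formulas. -/
def disj {m : ℕ} {V : Type} (Γ : List (Fm m V)) : Fm m V := .or Γ.length Γ.get

/-- `B` is a subformula of `A` (possibly `A` itself). -/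
inductive Sub {m : ℕ} {V : Type} : Fm m V → Fm m V → Prop
  | refl (A : Fm m V) : Sub A A
  | neg {B A : Fm m V} : Sub B A → Sub B (.neg A)
  | or {B : Fm m V} {k : ℕ} {f : Fin k → Fm m V} (i : Fin k) : Sub B (f i) → Sub B (.or k f)
  | mod {B : Fm m V} {k : ℕ} {c : Fin k → ZMod m} {f : Fin k → Fm m V} {a : ZMod m} (i : Fin k) :
      Sub B (f i) → Sub B (.mod k c f a)

/-- `A` and `B` are equal up to the order and the repetition of disjuncts and the order of the
inputs of the counting gates. -/
def Same {m : ℕ} {V : Type} : Fm m V → Fm m V → Prop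
  | .var x, .var y => x = y
  | .neg A, .neg B => Same A B
  | .or _ f, .or _ g => (∀ i, ∃ j, Same (f i) (g j)) ∧ ∀ j, ∃ i, Same (f i) (g j)
  | .mod k c f a, .mod l d g b =>
    a = b ∧ ∃ σ : Fin k ≃ Fin l, ∀ i, c i = d (σ i) ∧ Same (f i) (g (σ i))
  | _, _ => False

/-- The propositional variables for an unknown structure on the set `{0, ..., n - 1}`:
`⟨r, R, a⟩` says that the `r`-ary relation `R` holds for the elements `a 0, ..., a (r - 1)`. -/
abbrev Atom (L : FirstOrder.Language.{0, 0}) (n : ℕ) : Type := Σ r : ℕ, L.Relations r × (Fin r → Fin n)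

/-- Permute the elements of the set `{0, ..., n - 1}` in a formula. -/
def permute {L : FirstOrder.Language.{0, 0}} {m n : ℕ} (π : Equiv.Perm (Fin n))
    (A : Fm m (Atom L n)) : Fm m (Atom L n) :=
  A.rename fun x => ⟨x.1, x.2.1, fun i => π (x.2.2 i)⟩

/-- The formula `A` has at most `T` images under the permutations of the elements of `Q`, up to
the order and the repetition of disjuncts and the order of the inputs of counting gates. -/
def FewImages {L : FirstOrder.Language.{0, 0}} {m n : ℕ} (Q : Finset (Fin n)) (T : ℕ)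
    (A : Fm m (Atom L n)) : Prop :=
  ∃ R : Finset (Fm m (Atom L n)), R.card ≤ T ∧ ∀ π : Equiv.Perm (Fin n), (∀ x ∉ Q, π x = x) →
    ∃ B ∈ R, Same (permute π A) B

/-- Every line of `P` and every subformula of a line has at most `T` images under the
permutations of the elements of `Q`, after the extension variables have been replaced by the
formulas `E i`. -/
def Symmetric {L : FirstOrder.Language.{0, 0}} {m n e : ℕ} (Q : Finset (Fin n)) (T : ℕ)
    (E : Fin e → Fm m (Atom L n)) (P : List (List (Fm m (Atom L n ⊕ Fin e)))) : Prop :=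
  ∀ Γ ∈ P, ∀ B, Sub B (disj (Γ.map (subst E))) → FewImages Q T B

/-- The variable `x` occurs in a formula. -/
def Fm.Occurs {m : ℕ} {V : Type} (x : V) : Fm m V → Prop
  | .var y => y = x
  | .neg A => A.Occurs x
  | .or _ f => ∃ i, (f i).Occurs x
  | .mod _ _ f _ => ∃ i, (f i).Occurs x

/-- The definition of the extension variable `i` uses only extension variables `j < i`. -/
def Acyclic {m : ℕ} {V : Type} {e : ℕ} (D : Fin e → Fm m (V ⊕ Fin e)) : Prop :=
  ∀ i j, (D i).Occurs (.inr j) → j < i

/-- Permute the elements of `{0, ..., n - 1}` by `π` and the extension variables by `τ`. -/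
def move {L : FirstOrder.Language.{0, 0}} {m n e : ℕ} (π : Equiv.Perm (Fin n))
    (τ : Equiv.Perm (Fin e)) (A : Fm m (Atom L n ⊕ Fin e)) : Fm m (Atom L n ⊕ Fin e) :=
  A.rename (Sum.map (fun x => ⟨x.1, x.2.1, fun i => π (x.2.2 i)⟩) τ)

/-- The refutation `P` with the definitions `D` is invariant under the permutations of the elements
of `Q`: together with suitable permutations of the extension variables they map definitions to
definitions and lines to lines, up to `Same`. -/
def Invariant {L : FirstOrder.Language.{0, 0}} {m n e : ℕ} (Q : Finset (Fin n))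
    (D : Fin e → Fm m (Atom L n ⊕ Fin e)) (P : List (List (Fm m (Atom L n ⊕ Fin e)))) : Prop :=
  ∀ π : Equiv.Perm (Fin n), (∀ x ∉ Q, π x = x) → ∃ τ : Equiv.Perm (Fin e),
    (∀ i, Same (move π τ (D i)) (D (τ i))) ∧
    ∀ Γ ∈ P, ∃ Δ ∈ P, Same (move π τ (disj Γ)) (disj Δ)

/-- A term of a language without function symbols is a variable. -/
def varOf {L : FirstOrder.Language.{0, 0}} [L.IsRelational] {β : Type} : L.Term β → β
  | .var x => x
  | .func f _ => isEmptyElim f

/-- The propositional translation of a first-order formula over the set `{0, ..., n - 1}`, with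
the elements `a i` for the free variables: the quantifiers become conjunctions or disjunctions over
this set. -/
def trans {L : FirstOrder.Language.{0, 0}} [L.IsRelational] (m : ℕ) {n : ℕ} :
    {k : ℕ} → L.BoundedFormula Empty k → (Fin k → Fin n) → Fm m (Atom L n)
  | _, .falsum, _ => .or 0 Fin.elim0
  | _, .equal s t, a =>
    if Sum.elim Empty.elim a (varOf s) = Sum.elim Empty.elim a (varOf t) then
      .neg (.or 0 Fin.elim0) else .or 0 Fin.elim0
  | _, .rel R ts, a => .var ⟨_, R, fun i => Sum.elim Empty.elim a (varOf (ts i))⟩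
  | _, .imp φ ψ, a => .or 2 ![.neg (trans m φ a), trans m ψ a]
  | _, .all φ, a => .neg (.or n fun u => .neg (trans m φ (Fin.snoc a u)))

/-- The propositional translation of a sentence: satisfiable if and only if the sentence has a
model with `n` elements. -/
def translation {L : FirstOrder.Language.{0, 0}} [L.IsRelational] (m : ℕ) (Ψ : L.Sentence)
    (n : ℕ) : Fm m (Atom L n) :=
  trans m (n := n) (k := 0) Ψ Fin.elim0

end Pool.Agent.Lib.MP_e81270_lc_Mod
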