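import Pool.Agent.Lib.MP_e81270_lc_Gap.Sem

/-!
# Sums over symmetric families of functions of injections
-/

set_option autoImplicit false
set_option linter.unusedSectionVars false

namespace Pool.Agent.Lib.MP_e81270_lc_Mod

open Equiv Equiv.Perm

section
variable {n : ℕ} {M : Type} [Fintype M] [DecidableEq M] {R : Type} [CommRing R]
  {I : Type} [Fintype I]

/-- `κ` is an injection which agrees with `ι` on `S` -/
def Adm (S : Finset (Fin n)) (ι κ : Fin n → M) : Prop :=
  Function.Injective κ ∧ ∀ x ∈ S, κ x = ι x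

/-- the part of the sum at `κ` over the indices whose support has the image `V` -/
def part (U : I → Finset (Fin n)) (φ : I → (Fin n → M) → R) (κ : Fin n → M)
    (V : Finset M) : R :=
  ∑ i, if (U i).image κ = V then φ i κ else 0

/-- `H` is the distribution of the sum -/
def IsDist (S : Finset (Fin n)) (U : I → Finset (Fin n)) (φ : I → (Fin n → M) → R)
    (ι : Fin n → M) (H : Finset M → R) : Prop :=
  ∀ V : Finset M, (∀ κ, Adm S ι κ → (∀ v ∈ V, ∃ x, κ x = v) → part U φ κ V = H V) ∧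
    ((¬ ∃ κ, Adm S ι κ ∧ ∀ v ∈ V, ∃ x, κ x = v) → H V = 0)

/-- the family is symmetric under the even permutations which fix `S` -/
structure SymFam (B S : Finset (Fin n)) (U : I → Finset (Fin n)) (φ : I → (Fin n → M) → R)
    (u : ℕ) : Prop where
  base : B ⊆ S
  loc : ∀ i κ κ', (∀ x ∈ U i, κ x = κ' x) → φ i κ = φ i κ'
  perm : ∀ π : Perm (Fin n), sign π = 1 → (∀ x ∈ S, π x = x) → ∃ σ : Perm I, ∀ i,
    U (σ i) = (U i).map π.toEmbedding ∧ ∀ κ, Function.Injective κ → φ (σ i) κ = φ i (κ ∘ π)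
  card : ∀ i, (U i \ B).card ≤ u

variable {B S T : Finset (Fin n)} {U : I → Finset (Fin n)} {φ : I → (Fin n → M) → R} {u : ℕ}
  {ι κ κ' : Fin n → M} {H H' : Finset M → R} {V : Finset M}

lemma IsDist.unique (h : IsDist S U φ ι H) (h' : IsDist S U φ ι H') : H = H' := by
  funext V
  by_cases hc : ∃ κ, Adm S ι κ ∧ ∀ v ∈ V, ∃ x, κ x = v
  · obtain ⟨κ, h1, h2⟩ := hc
    rw [← (h V).1 κ h1 h2, ← (h' V).1 κ h1 h2]
  · rw [(h V).2 hc, (h' V).2 hc]

lemma IsDist.congr_ι (h : IsDist S U φ ι H) (he : ∀ x ∈ S, ι x = κ x) : IsDist S U φ κ H := by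
  have : ∀ κ', Adm S ι κ' ↔ Adm S κ κ' := by
    intro κ'
    constructor
    · rintro ⟨h1, h2⟩
      exact ⟨h1, fun x hx => (h2 x hx).trans (he x hx)⟩
    · rintro ⟨h1, h2⟩
      exact ⟨h1, fun x hx => (h2 x hx).trans (he x hx).symm⟩
  intro V
  simp only [← this]
  exact h V

lemma part_congr {I' : Type} [Fintype I'] {U' : I' → Finset (Fin n)}
    {φ' : I' → (Fin n → M) → R} (σ : I ≃ I') (hκ : Function.Injective κ)
    (h : ∀ i, U' (σ i) = U i ∧ ∀ κ, Function.Injective κ → φ' (σ i) κ = φ i κ) :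
    part U φ κ V = part U' φ' κ V := by
  rw [part, part, ← Equiv.sum_comp σ]
  refine Finset.sum_congr rfl fun i _ => ?_
  rw [(h i).1, (h i).2 κ hκ]

lemma IsDist.congr {I' : Type} [Fintype I'] {U' : I' → Finset (Fin n)}
    {φ' : I' → (Fin n → M) → R} (σ : I ≃ I')
    (h : ∀ i, U' (σ i) = U i ∧ ∀ κ, Function.Injective κ → φ' (σ i) κ = φ i κ)
    (hH : IsDist S U φ ι H) : IsDist S U' φ' ι H := by
  intro V
  refine ⟨fun κ h1 h2 => ?_, (hH V).2⟩
  rw [← part_congr σ h1.1 h]
  exact (hH V).1 κ h1 h2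

lemma part_perm (π : Perm (Fin n)) :
    part (fun i => (U i).map π.toEmbedding) (fun i κ => φ i (κ ∘ π)) κ V =
      part U φ (κ ∘ π) V := by
  rw [part, part]
  refine Finset.sum_congr rfl fun i _ => ?_
  have : ((U i).map π.toEmbedding).image κ = (U i).image (κ ∘ π) := by
    rw [Finset.map_eq_image, Finset.image_image]
    rfl
  rw [this]

lemma adm_perm (π : Perm (Fin n)) : Adm (S.map π.toEmbedding) ι κ ↔ Adm S (ι ∘ π) (κ ∘ π) := by
  constructor
  · rintro ⟨h1, h2⟩
    exact ⟨h1.comp π.injective, fun x hx => h2 (π x) (Finset.mem_map_of_mem π.toEmbedding hx)⟩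
  · rintro ⟨h1, h2⟩
    refine ⟨?_, fun x hx => ?_⟩
    · have := h1.comp π.symm.injective
      rwa [Function.comp_assoc, Equiv.self_comp_symm, Function.comp_id] at this
    · rw [Finset.mem_map_equiv] at hx
      have := h2 _ hx
      simpa using this

lemma IsDist.perm_iff (π : Perm (Fin n)) :
    IsDist (S.map π.toEmbedding) (fun i => (U i).map π.toEmbedding)
      (fun i κ => φ i (κ ∘ π)) ι H ↔ IsDist S U φ (ι ∘ π) H := by
  have hr : ∀ (κ : Fin n → M) (v : M), (∃ x, κ x = v) ↔ ∃ x, (κ ∘ π) x = v := by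
    intro κ v
    constructor
    · rintro ⟨x, hx⟩
      exact ⟨π.symm x, by simpa using hx⟩
    · rintro ⟨x, hx⟩
      exact ⟨π x, hx⟩
  constructor
  · intro h V
    constructor
    · intro κ h1 h2
      have e : (κ ∘ π.symm) ∘ π = κ := by
        rw [Function.comp_assoc, Equiv.symm_comp_self, Function.comp_id]
      have h3 := (h V).1 (κ ∘ π.symm) ((adm_perm π).2 (e.symm ▸ h1))
        (fun v hv => (hr _ v).2 (e.symm ▸ h2 v hv))
      rw [part_perm, e] at h3
      exact h3
    · intro hc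
      apply (h V).2
      rintro ⟨κ, h1, h2⟩
      exact hc ⟨κ ∘ π, (adm_perm π).1 h1, fun v hv => (hr κ v).1 (h2 v hv)⟩
  · intro h V
    constructor
    · intro κ h1 h2
      rw [part_perm]
      exact (h V).1 _ ((adm_perm π).1 h1) fun v hv => (hr κ v).1 (h2 v hv)
    · intro hc
      apply (h V).2
      rintro ⟨κ, h1, h2⟩
      have e : (κ ∘ π.symm) ∘ π = κ := by
        rw [Function.comp_assoc, Equiv.symm_comp_self, Function.comp_id]
      exact hc ⟨κ ∘ π.symm, (adm_perm π).2 (e.symm ▸ h1),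
        fun v hv => (hr _ v).2 (e.symm ▸ h2 v hv)⟩

lemma card_filter_sdiff (hκ : Adm S ι κ) :
    ((Finset.univ.filter fun x => κ x ∈ V) \ S).card ≤ (V \ S.image ι).card := by
  apply Finset.card_le_card_of_injOn κ
  · intro x hx
    rw [Finset.mem_coe, Finset.mem_sdiff, Finset.mem_filter] at hx
    rw [Finset.mem_coe, Finset.mem_sdiff, Finset.mem_image]
    refine ⟨hx.1.2, ?_⟩
    rintro ⟨y, hy, hyx⟩
    rw [← hκ.2 y hy] at hyx
    exact hx.2 (hκ.1 hyx ▸ hy)
  · exact fun x _ y _ hxy => hκ.1 hxy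

lemma card_sdiff_image (hκ : Adm S ι κ) {W : Finset (Fin n)} (hW : W.image κ = V) :
    (V \ S.image ι).card ≤ (W \ S).card := by
  refine le_trans (Finset.card_le_card ?_) (Finset.card_image_le (s := W \ S) (f := κ))
  intro v hv
  rw [Finset.mem_sdiff, ← hW, Finset.mem_image] at hv
  obtain ⟨⟨x, hx, rfl⟩, h2⟩ := hv
  refine Finset.mem_image_of_mem κ (Finset.mem_sdiff.2 ⟨hx, fun hxS => h2 ?_⟩)
  rw [hκ.2 x hxS]
  exact Finset.mem_image_of_mem ι hxS

/-- the part of the sum does not depend on the injection -/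
lemma part_eq (h : SymFam B S U φ u) (hn : S.card + 2 * u + 2 ≤ n) (hκ : Adm S ι κ)
    (hκ' : Adm S ι κ') (hV : ∀ v ∈ V, ∃ x, κ x = v) (hV' : ∀ v ∈ V, ∃ x, κ' x = v) :
    part U φ κ V = part U φ κ' V := by
  have hU : ∀ i, (U i \ S).card ≤ u := fun i =>
    (Finset.card_le_card (Finset.sdiff_subset_sdiff (Finset.Subset.refl _) h.base)).trans
      (h.card i)
  by_cases hc : (V \ S.image ι).card ≤ u
  swap
  · have h1 : ∀ κ, Adm S ι κ → part U φ κ V = 0 := by
      intro κ hκ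
      rw [part]
      refine Finset.sum_eq_zero fun i _ => if_neg fun hi => hc ?_
      exact (card_sdiff_image hκ hi).trans (hU i)
    rw [h1 κ hκ, h1 κ' hκ']
  obtain ⟨Bx, hBx⟩ : ∃ Bx, Bx = Finset.univ.filter fun x => κ x ∈ V := ⟨_, rfl⟩
  obtain ⟨Px, hPx⟩ : ∃ Px, Px = Finset.univ.filter fun x => κ' x ∈ V := ⟨_, rfl⟩
  have c1 : (Bx \ S).card ≤ u := hBx ▸ (card_filter_sdiff hκ).trans hc
  have c2 : (Px \ S).card ≤ u := hPx ▸ (card_filter_sdiff hκ').trans hc
  have c3 : (S ∪ Bx).card ≤ S.card + (Bx \ S).card := by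
    rw [← Finset.union_sdiff_self_eq_union]
    exact Finset.card_union_le _ _
  have c4 : (S ∪ Px).card ≤ S.card + (Px \ S).card := by
    rw [← Finset.union_sdiff_self_eq_union]
    exact Finset.card_union_le _ _
  obtain ⟨π, hπ1, hπ2, hπ3⟩ := Pool.Agent.Lib.MP_e81270_lc_Gap.exists_move hκ'.1 hκ.1
    (S := S) (P := S ∪ Px) (B := Bx) Finset.subset_union_left
    (fun x hx => (hκ.2 x hx).trans (hκ'.2 x hx).symm) (by omega) (by omega)
  have key : ∀ x, κ x ∈ V → κ' (π x) = κ x := by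
    intro x hx
    obtain ⟨y, hy⟩ := hV' _ hx
    have hyP : y ∈ S ∪ Px := by
      rw [hPx]
      exact Finset.mem_union_right _ (Finset.mem_filter.2 ⟨Finset.mem_univ _, hy ▸ hx⟩)
    have hxB : x ∈ Bx := by
      rw [hBx]
      exact Finset.mem_filter.2 ⟨Finset.mem_univ _, hx⟩
    rw [(hπ3 x hxB y hyP).1 hy.symm, hy]
  have key2 : ∀ x, κ' (π x) ∈ V → κ' (π x) = κ x := by
    intro x hx
    obtain ⟨y, hy⟩ := hV _ hx
    have h1 := key y (hy ▸ hx)
    rw [hy] at h1
    have h2 := π.injective (hκ'.1 h1)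
    rw [← hy, h2]
  obtain ⟨σ, hσ⟩ := h.perm π hπ1 hπ2
  rw [part, part, ← Equiv.sum_comp σ (fun i => if (U i).image κ' = V then φ i κ' else 0)]
  refine Finset.sum_congr rfl fun i _ => ?_
  rw [(hσ i).1, (hσ i).2 κ' hκ'.1]
  have e1 : ((U i).map π.toEmbedding).image κ' = (U i).image (κ' ∘ π) := by
    rw [Finset.map_eq_image, Finset.image_image]
    rfl
  rw [e1]
  have e2 : (U i).image κ = V → ∀ x ∈ U i, (κ' ∘ π) x = κ x := by
    intro hi x hx
    exact key x (hi ▸ Finset.mem_image_of_mem κ hx)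
  have e3 : (U i).image (κ' ∘ π) = V → ∀ x ∈ U i, (κ' ∘ π) x = κ x := by
    intro hi x hx
    exact key2 x (hi ▸ Finset.mem_image_of_mem (κ' ∘ π) hx)
  by_cases hi : (U i).image κ = V
  · have e4 : (U i).image (κ' ∘ π) = V := by
      rw [← hi]
      exact Finset.image_congr (fun x hx => e2 hi x hx)
    rw [if_pos hi, if_pos e4]
    exact h.loc i _ _ fun x hx => (e2 hi x hx).symm
  · have e4 : ¬ (U i).image (κ' ∘ π) = V := by
      intro hc
      apply hi
      rw [← hc]
      exact Finset.image_congr (fun x hx => (e3 hc x hx).symm)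
    rw [if_neg hi, if_neg e4]

open Classical in
/-- the distribution of the sum -/
noncomputable def dist (S : Finset (Fin n)) (U : I → Finset (Fin n))
    (φ : I → (Fin n → M) → R) (ι : Fin n → M) (V : Finset M) : R :=
  if h : ∃ κ, Adm S ι κ ∧ ∀ v ∈ V, ∃ x, κ x = v then part U φ h.choose V else 0

lemma isDist_dist (h : SymFam B S U φ u) (hn : S.card + 2 * u + 2 ≤ n) :
    IsDist S U φ ι (dist S U φ ι) := by
  intro V
  constructor
  · intro κ h1 h2
    have hc : ∃ κ, Adm S ι κ ∧ ∀ v ∈ V, ∃ x, κ x = v := ⟨κ, h1, h2⟩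
    rw [dist, dif_pos hc]
    exact part_eq h hn h1 hc.choose_spec.1 h2 hc.choose_spec.2
  · intro hc
    rw [dist, dif_neg hc]

/-- the sum at an injection in terms of the distribution -/
lemma sum_eq_dist (h : IsDist S U φ ι H) (hκ : Adm S ι κ) :
    ∑ i, φ i κ = ∑ V : Finset M, if ∀ v ∈ V, ∃ x, κ x = v then H V else 0 := by
  classical
  have h1 : ∑ V : Finset M, (if ∀ v ∈ V, ∃ x, κ x = v then H V else 0) =
      ∑ V : Finset M, part U φ κ V := by
    refine Finset.sum_congr rfl fun V _ => ?_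
    by_cases hV : ∀ v ∈ V, ∃ x, κ x = v
    · rw [if_pos hV, (h V).1 κ hκ hV]
    · rw [if_neg hV, part]
      refine (Finset.sum_eq_zero fun i _ => if_neg fun hi => hV ?_).symm
      intro v hv
      rw [← hi, Finset.mem_image] at hv
      obtain ⟨x, _, hx⟩ := hv
      exact ⟨x, hx⟩
  rw [h1]
  simp only [part]
  rw [Finset.sum_comm]
  refine Finset.sum_congr rfl fun i _ => ?_
  rw [Finset.sum_ite_eq]
  simp

lemma IsDist.exists_of_ne (h : IsDist S U φ ι H) (hV : H V ≠ 0) :
    ∃ κ, Adm S ι κ ∧ ∃ i, (U i).image κ = V := by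
  have hc : ∃ κ, Adm S ι κ ∧ ∀ v ∈ V, ∃ x, κ x = v := by
    by_contra hc
    exact hV ((h V).2 hc)
  obtain ⟨κ, h1, h2⟩ := hc
  refine ⟨κ, h1, ?_⟩
  by_contra hcon
  push Not at hcon
  apply hV
  rw [← (h V).1 κ h1 h2, part]
  exact Finset.sum_eq_zero fun i _ => if_neg (hcon i)

end

section
variable {n : ℕ} {M : Type} [Fintype M] [DecidableEq M]

/-- injections `κ X` with the ranges `Xᶜ` for all sets `X` of `d` elements of `Y` -/
structure Design (T : Finset (Fin n)) (ι : Fin n → M) (d e : ℕ) where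
  Y : Finset M
  card_Y : Y.card = d + e
  disj : ∀ x ∈ T, ι x ∉ Y
  κ : Finset M → Fin n → M
  adm : ∀ X ∈ Y.powersetCard d, Adm T ι (κ X)
  range : ∀ X ∈ Y.powersetCard d, ∀ v, (∃ x, κ X x = v) ↔ v ∉ X

lemma exists_inj_range {T : Finset (Fin n)} {ι : Fin n → M} (hι : Set.InjOn ι T)
    {Z : Finset M} (hZ : Z.card = n) (hT : T.image ι ⊆ Z) :
    ∃ κ : Fin n → M, Function.Injective κ ∧ (∀ x ∈ T, κ x = ι x) ∧
      ∀ v, (∃ x, κ x = v) ↔ v ∈ Z := by
  obtain ⟨g, hg⟩ := Finset.exists_equiv_extend_of_card_eq (α := Fin n) (β := M) (t := Z)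
    (by rw [Fintype.card_fin, hZ]) hT hι
  refine ⟨fun x => g x, fun x y hxy => g.injective (Subtype.ext hxy), hg, fun v => ?_⟩
  constructor
  · rintro ⟨x, rfl⟩
    exact (g x).2
  · intro hv
    exact ⟨g.symm ⟨v, hv⟩, by simp⟩

lemma exists_design {T : Finset (Fin n)} {ι : Fin n → M} {d e : ℕ}
    (hι : Function.Injective ι) (hM : Fintype.card M = n + d) (hT : T.card + e ≤ n) :
    Nonempty (Design T ι d e) := by
  classical
  have hc : ((T.image ι)ᶜ : Finset M).card = n + d - T.card := by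
    rw [Finset.card_compl, hM, Finset.card_image_of_injective _ hι]
  obtain ⟨Y, hY, hYc⟩ := Finset.exists_subset_card_eq (s := ((T.image ι)ᶜ : Finset M))
    (n := d + e) (by rw [hc]; omega)
  have key : ∀ X : Finset M, ∃ κ : Fin n → M, X ∈ Y.powersetCard d →
      Adm T ι κ ∧ ∀ v, (∃ x, κ x = v) ↔ v ∉ X := by
    intro X
    by_cases hX : X ∈ Y.powersetCard d
    · rw [Finset.mem_powersetCard] at hX
      obtain ⟨κ, h1, h2, h3⟩ := exists_inj_range (T := T) (ι := ι) hι.injOn (Z := Xᶜ)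
        (by rw [Finset.card_compl, hM, hX.2]; omega) (by
          intro v hv
          rw [Finset.mem_compl]
          intro hvX
          exact Finset.mem_compl.1 (hY (hX.1 hvX)) hv)
      exact ⟨κ, fun _ => ⟨⟨h1, h2⟩, fun v => (h3 v).trans Finset.mem_compl⟩⟩
    · exact ⟨ι, fun h => absurd h hX⟩
  choose κ hκ using key
  exact ⟨⟨Y, hYc, fun x hx hxY => Finset.mem_compl.1 (hY hxY) (Finset.mem_image_of_mem ι hx),
    κ, fun X hX => (hκ X hX).1, fun X hX => (hκ X hX).2⟩⟩

variable {R : Type} [CommRing R] {I : Type} [Fintype I]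
  {B S T : Finset (Fin n)} {U : I → Finset (Fin n)} {φ : I → (Fin n → M) → R} {u d e : ℕ}
  {ι : Fin n → M} {H : Finset M → R}

/-- the value of the sum in terms of a design -/
theorem sum_design (D : Design T ι d e) (hd : ∀ e' ≤ e, (((d + e').choose d : ℕ) : R) = 1)
    (hB : B ⊆ S) (hST : S ⊆ T) (hcard : ∀ i, (U i \ B).card ≤ u) (hH : IsDist S U φ ι H)
    (V₀ : Finset M) (hV₀ : (V₀ ∩ D.Y).card + u ≤ e) :
    ∑ X ∈ D.Y.powersetCard d, (if Disjoint X V₀ then ∑ i, φ i (D.κ X) else 0) =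
      ∑ V, H V := by
  classical
  have h1 : ∀ X ∈ D.Y.powersetCard d, ∑ i, φ i (D.κ X) =
      ∑ V : Finset M, if Disjoint X V then H V else 0 := by
    intro X hX
    rw [sum_eq_dist hH ⟨(D.adm X hX).1, fun x hx => (D.adm X hX).2 x (hST hx)⟩]
    refine Finset.sum_congr rfl fun V _ => ?_
    have : (∀ v ∈ V, ∃ x, D.κ X x = v) ↔ Disjoint X V := by
      rw [Finset.disjoint_right]
      exact forall₂_congr fun v _ => D.range X hX v
    simp only [this]
  have h2 : ∑ X ∈ D.Y.powersetCard d, (if Disjoint X V₀ then ∑ i, φ i (D.κ X) else 0) =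
      ∑ X ∈ D.Y.powersetCard d, ∑ V : Finset M, if Disjoint X (V₀ ∪ V) then H V else 0 := by
    refine Finset.sum_congr rfl fun X hX => ?_
    rw [h1 X hX]
    by_cases hX0 : Disjoint X V₀
    · rw [if_pos hX0]
      refine Finset.sum_congr rfl fun V _ => ?_
      simp only [Finset.disjoint_union_right, hX0, true_and]
    · rw [if_neg hX0]
      refine (Finset.sum_eq_zero fun V _ => if_neg fun h => hX0 ?_).symm
      exact (Finset.disjoint_union_right.1 h).1
  rw [h2, Finset.sum_comm]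
  refine Finset.sum_congr rfl fun V _ => ?_
  rw [← Finset.sum_filter, Finset.sum_const, nsmul_eq_mul]
  by_cases hV : H V = 0
  · rw [hV, mul_zero]
  -- the set `V` has few elements in `Y`
  obtain ⟨κ, hκ, i, hi⟩ := hH.exists_of_ne hV
  have h3 : (V ∩ D.Y).card ≤ u := by
    refine le_trans ?_ (hcard i)
    refine le_trans (Finset.card_le_card ?_) (Finset.card_image_le (s := U i \ B) (f := κ))
    intro v hv
    rw [Finset.mem_inter, ← hi, Finset.mem_image] at hv
    obtain ⟨⟨x, hx, rfl⟩, h4⟩ := hv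
    refine Finset.mem_image_of_mem κ (Finset.mem_sdiff.2 ⟨hx, fun hxB => ?_⟩)
    rw [hκ.2 x (hB hxB)] at h4
    exact D.disj x (hST (hB hxB)) h4
  have h4 : (D.Y.powersetCard d).filter (fun X => Disjoint X (V₀ ∪ V)) =
      (D.Y \ (V₀ ∪ V)).powersetCard d := by
    ext X
    rw [Finset.mem_filter, Finset.mem_powersetCard, Finset.mem_powersetCard,
      Finset.subset_sdiff]
    tauto
  have h5 : ((V₀ ∪ V) ∩ D.Y).card ≤ e := by
    rw [Finset.union_inter_distrib_right]
    have := Finset.card_union_le (V₀ ∩ D.Y) (V ∩ D.Y)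
    omega
  have h6 : (D.Y \ (V₀ ∪ V)).card = d + (e - ((V₀ ∪ V) ∩ D.Y).card) := by
    have := Finset.card_sdiff_add_card_inter D.Y (V₀ ∪ V)
    rw [Finset.inter_comm D.Y, D.card_Y] at this
    omega
  rw [h4, Finset.card_powersetCard, h6, hd _ (Nat.sub_le _ _), one_mul]

/-- double sums -/
theorem fubini {J : I → Type} [∀ i, Fintype (J i)] {W : I → Finset (Fin n)}
    {U : (i : I) → J i → Finset (Fin n)} {φ : (i : I) → J i → (Fin n → M) → R}
    (hin : ∀ i, SymFam B (W i) (U i) (φ i) u) (hW : ∀ i, (W i).card + 2 * u + 2 ≤ n)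
    (hout : ∀ V, SymFam B S W (fun i κ => dist (W i) (U i) (φ i) κ V) u)
    (hSn : S.card + 2 * u + 2 ≤ n)
    (D : Design T ι d e) (hd : ∀ e' ≤ e, (((d + e').choose d : ℕ) : R) = 1)
    (hST : S ⊆ T) (he : 2 * u ≤ e) :
    ∑ X ∈ D.Y.powersetCard d, ∑ i, ∑ V, dist (W i) (U i) (φ i) (D.κ X) V =
      ∑ X ∈ D.Y.powersetCard d, ∑ i, ∑ j, φ i j (D.κ X) := by
  classical
  have h1 : ∀ V : Finset M,
      ∑ X ∈ D.Y.powersetCard d, ∑ i, dist (W i) (U i) (φ i) (D.κ X) V =
      ∑ X ∈ D.Y.powersetCard d, if Disjoint X V then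
        ∑ i, dist (W i) (U i) (φ i) (D.κ X) V else 0 := by
    intro V
    by_cases hV : (V ∩ D.Y).card ≤ u
    · have hdist := isDist_dist (hout V) hSn (ι := ι)
      have h2 := sum_design D hd (hout V).base hST (hout V).card hdist V (by omega)
      have h3 := sum_design D hd (hout V).base hST (hout V).card hdist ∅ (by
        rw [Finset.empty_inter, Finset.card_empty]; omega)
      rw [h2, ← h3]
      exact Finset.sum_congr rfl fun X _ => (if_pos (Finset.disjoint_empty_right X)).symm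
    · have h2 : ∀ X ∈ D.Y.powersetCard d, ∀ i, dist (W i) (U i) (φ i) (D.κ X) V = 0 := by
        intro X hX i
        by_contra hne
        obtain ⟨κ, hκ, j, hj⟩ := (isDist_dist (hin i) (hW i)).exists_of_ne hne
        apply hV
        refine le_trans ?_ ((hin i).card j)
        refine le_trans (Finset.card_le_card ?_)
          (Finset.card_image_le (s := U i j \ B) (f := κ))
        intro v hv
        rw [Finset.mem_inter, ← hj, Finset.mem_image] at hv
        obtain ⟨⟨x, hx, rfl⟩, h4⟩ := hv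
        refine Finset.mem_image_of_mem κ (Finset.mem_sdiff.2 ⟨hx, fun hxB => ?_⟩)
        have hxT : x ∈ T := hST ((hout ∅).base hxB)
        rw [hκ.2 x ((hin i).base hxB), (D.adm X hX).2 x hxT] at h4
        exact D.disj x hxT h4
      refine Finset.sum_congr rfl fun X hX => ?_
      have h3 : ∑ i, dist (W i) (U i) (φ i) (D.κ X) V = 0 :=
        Finset.sum_eq_zero fun i _ => h2 X hX i
      rw [h3, ite_self]
  calc ∑ X ∈ D.Y.powersetCard d, ∑ i, ∑ V, dist (W i) (U i) (φ i) (D.κ X) V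
      = ∑ V, ∑ X ∈ D.Y.powersetCard d, ∑ i, dist (W i) (U i) (φ i) (D.κ X) V :=
        (Finset.sum_congr rfl fun X _ => Finset.sum_comm).trans Finset.sum_comm
    _ = ∑ V, ∑ X ∈ D.Y.powersetCard d, (if Disjoint X V then
        ∑ i, dist (W i) (U i) (φ i) (D.κ X) V else 0) := Finset.sum_congr rfl fun V _ => h1 V
    _ = ∑ X ∈ D.Y.powersetCard d, ∑ i, ∑ V, (if Disjoint X V then
        dist (W i) (U i) (φ i) (D.κ X) V else 0) := by
        rw [Finset.sum_comm]
        refine Finset.sum_congr rfl fun X _ => ?_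
        rw [Finset.sum_comm]
        refine Finset.sum_congr rfl fun V _ => ?_
        by_cases hXV : Disjoint X V
        · simp only [if_pos hXV]
        · simp only [if_neg hXV, Finset.sum_const_zero]
    _ = ∑ X ∈ D.Y.powersetCard d, ∑ i, ∑ j, φ i j (D.κ X) := by
        refine Finset.sum_congr rfl fun X hX => Finset.sum_congr rfl fun i _ => ?_
        rw [sum_eq_dist (isDist_dist (ι := D.κ X) (hin i) (hW i))
          ⟨(D.adm X hX).1, fun _ _ => rfl⟩]
        refine Finset.sum_congr rfl fun V _ => ?_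
        have : (∀ v ∈ V, ∃ x, D.κ X x = v) ↔ Disjoint X V := by
          rw [Finset.disjoint_right]
          exact forall₂_congr fun v _ => D.range X hX v
        simp only [this]

end

end Pool.Agent.Lib.MP_e81270_lc_Mod
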