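import Pool.Agent.Lib.MP_e81270_lc_Mod.Basic

/-!
# Invariant refutations
-/

set_option autoImplicit false

namespace Pool.Agent.Lib.MP_e81270_lc_Mod

open FirstOrder Equiv Equiv.Perm

section
variable {m : ℕ} {V : Type} {e : ℕ}

/-- the size of a line -/
def lsize (Γ : List (Fm m V)) : ℕ := 1 + (Γ.map Fm.size).sum

lemma totalSize_eq (P : List (List (Fm m V))) : totalSize P = (P.map lsize).sum := rfl

lemma sub_trans {A B C : Fm m V} (h : Sub A B) (h' : Sub B C) : Sub A C := by
  induction h' with
  | refl => exact h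
  | neg _ ih => exact .neg ih
  | or i _ ih => exact .or i ih
  | mod i _ ih => exact .mod i ih

lemma sub_disj' {Γ : List (Fm m V)} {A B : Fm m V} (hA : A ∈ Γ) (h : Sub B A) :
    Sub B (disj Γ) := by
  obtain ⟨i, rfl⟩ := List.mem_iff_get.1 hA
  exact .or i h

lemma same_subst {E : Fin e → Fm m V} {A B : Fm m (V ⊕ Fin e)} (h : Same A B) :
    Same (subst E A) (subst E B) := by
  induction A generalizing B with
  | var x =>
    cases B with
    | var y =>
      have : x = y := h
      subst this
      exact Same.refl _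
    | neg B => simp [Same] at h
    | or l g => simp [Same] at h
    | mod l d g b => simp [Same] at h
  | neg A ih =>
    cases B with
    | var y => simp [Same] at h
    | or l g => simp [Same] at h
    | mod l d g b => simp [Same] at h
    | neg B => exact ih (B := B) h
  | or k f ih =>
    cases B with
    | var y => simp [Same] at h
    | neg B => simp [Same] at h
    | mod l d g b => simp [Same] at h
    | or l g =>
      refine ⟨fun i => ?_, fun j => ?_⟩
      · obtain ⟨j, hj⟩ := h.1 i
        exact ⟨j, ih i hj⟩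
      · obtain ⟨i, hi⟩ := h.2 j
        exact ⟨i, ih i hi⟩
  | mod k c f a ih =>
    cases B with
    | var y => simp [Same] at h
    | neg B => simp [Same] at h
    | or l g => simp [Same] at h
    | mod l d g b =>
      obtain ⟨h1, σ, h2⟩ := h
      exact ⟨h1, σ, fun i => ⟨(h2 i).1, ih i (h2 i).2⟩⟩

lemma sub_rename {W : Type} (h : V → W) {A B : Fm m V} (hs : Sub B A) :
    Sub (B.rename h) (A.rename h) := by
  induction hs with
  | refl => exact .refl _
  | neg _ ih => exact .neg ih
  | or i _ ih => exact .or (f := fun i => Fm.rename h _) i ih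
  | mod i _ ih => exact .mod (f := fun i => Fm.rename h _) i ih

lemma same_sub {A B C : Fm m V} (h : Same A B) (hs : Sub C A) : ∃ D, Sub D B ∧ Same C D := by
  induction hs generalizing B with
  | refl => exact ⟨B, .refl B, h⟩
  | neg _ ih =>
    cases B with
    | var y => simp [Same] at h
    | or l g => simp [Same] at h
    | mod l d g b => simp [Same] at h
    | neg B =>
      obtain ⟨D, h1, h2⟩ := ih (B := B) h
      exact ⟨D, .neg h1, h2⟩
  | or i _ ih =>
    cases B with
    | var y => simp [Same] at h
    | neg B => simp [Same] at h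
    | mod l d g b => simp [Same] at h
    | or l g =>
      obtain ⟨j, hj⟩ := h.1 i
      obtain ⟨D, h1, h2⟩ := ih hj
      exact ⟨D, .or j h1, h2⟩
  | mod i _ ih =>
    cases B with
    | var y => simp [Same] at h
    | neg B => simp [Same] at h
    | or l g => simp [Same] at h
    | mod l d g b =>
      obtain ⟨h1, σ, h2⟩ := h
      obtain ⟨D, h3, h4⟩ := ih (h2 i).2
      exact ⟨D, .mod (σ i) h3, h4⟩

/-- the list of the subformulas -/
def Fm.subs : Fm m V → List (Fm m V)
  | .var x => [.var x]
  | .neg A => .neg A :: A.subs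
  | .or k f => .or k f :: (List.ofFn fun i => (f i).subs).flatten
  | .mod k c f a => .mod k c f a :: (List.ofFn fun i => (f i).subs).flatten

lemma length_subs (A : Fm m V) : A.subs.length = A.size := by
  induction A with
  | var x => rfl
  | neg A ih => rw [Fm.subs, Fm.size, List.length_cons, ih, add_comm]
  | or k f ih =>
    rw [Fm.subs, Fm.size, List.length_cons, List.length_flatten, List.map_ofFn, add_comm,
      List.sum_ofFn]
    congr 1
    exact Finset.sum_congr rfl fun i _ => ih i
  | mod k c f a ih =>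
    rw [Fm.subs, Fm.size, List.length_cons, List.length_flatten, List.map_ofFn, add_comm,
      List.sum_ofFn]
    congr 1
    exact Finset.sum_congr rfl fun i _ => ih i

lemma mem_subs {A B : Fm m V} (h : Sub B A) : B ∈ A.subs := by
  induction h with
  | refl => cases B <;> simp [Fm.subs]
  | neg _ ih => exact List.mem_cons_of_mem _ ih
  | or i _ ih =>
    refine List.mem_cons_of_mem _ (List.mem_flatten.2 ⟨_, ?_, ih⟩)
    rw [List.mem_ofFn]
    exact ⟨i, rfl⟩
  | mod i _ ih =>
    refine List.mem_cons_of_mem _ (List.mem_flatten.2 ⟨_, ?_, ih⟩)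
    rw [List.mem_ofFn]
    exact ⟨i, rfl⟩

/-- the subformulas of unfolded formulas are unfolded subformulas -/
lemma sub_subst {D : Fin e → Fm m (V ⊕ Fin e)} (hD : Acyclic D) {E : Fin e → Fm m V}
    (hE : ∀ i, E i = subst E (D i)) (N : ℕ) : ∀ A : Fm m (V ⊕ Fin e),
    (∀ j : Fin e, A.Occurs (.inr j) → (j : ℕ) < N) → ∀ B, Sub B (subst E A) →
      ∃ A', (Sub A' A ∨ ∃ i, Sub A' (D i)) ∧ B = subst E A' := by
  induction N with
  | zero =>
    intro A
    induction A with
    | var x =>
      intro hA B hB
      rcases x with x | i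
      · cases hB with
        | refl => exact ⟨.var (.inl x), Or.inl (.refl _), rfl⟩
      · exact absurd (hA i rfl) (Nat.not_lt_zero _)
    | neg A ih =>
      intro hA B hB
      rw [subst] at hB
      cases hB with
      | refl => exact ⟨.neg A, Or.inl (.refl _), rfl⟩
      | neg hB =>
        obtain ⟨A', h1, h2⟩ := ih hA B hB
        exact ⟨A', h1.imp_left .neg, h2⟩
    | or k f ih =>
      intro hA B hB
      rw [subst] at hB
      cases hB with
      | refl => exact ⟨.or k f, Or.inl (.refl _), rfl⟩
      | or i hB =>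
        obtain ⟨A', h1, h2⟩ := ih i (fun j hj => hA j ⟨i, hj⟩) B hB
        exact ⟨A', h1.imp_left (.or i), h2⟩
    | mod k c f a ih =>
      intro hA B hB
      rw [subst] at hB
      cases hB with
      | refl => exact ⟨.mod k c f a, Or.inl (.refl _), rfl⟩
      | mod i hB =>
        obtain ⟨A', h1, h2⟩ := ih i (fun j hj => hA j ⟨i, hj⟩) B hB
        exact ⟨A', h1.imp_left (.mod i), h2⟩
  | succ N ihN =>
    intro A
    induction A with
    | var x =>
      intro hA B hB
      rcases x with x | i
      · cases hB with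
        | refl => exact ⟨.var (.inl x), Or.inl (.refl _), rfl⟩
      · rw [subst, hE i] at hB
        have hi : (i : ℕ) < N + 1 := hA i rfl
        obtain ⟨A', h1, h2⟩ := ihN (D i) (fun j hj => by
          have : (j : ℕ) < (i : ℕ) := hD i j hj
          omega) B hB
        refine ⟨A', Or.inr ?_, h2⟩
        rcases h1 with h1 | h1
        · exact ⟨i, h1⟩
        · exact h1
    | neg A ih =>
      intro hA B hB
      rw [subst] at hB
      cases hB with
      | refl => exact ⟨.neg A, Or.inl (.refl _), rfl⟩
      | neg hB =>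
        obtain ⟨A', h1, h2⟩ := ih hA B hB
        exact ⟨A', h1.imp_left .neg, h2⟩
    | or k f ih =>
      intro hA B hB
      rw [subst] at hB
      cases hB with
      | refl => exact ⟨.or k f, Or.inl (.refl _), rfl⟩
      | or i hB =>
        obtain ⟨A', h1, h2⟩ := ih i (fun j hj => hA j ⟨i, hj⟩) B hB
        exact ⟨A', h1.imp_left (.or i), h2⟩
    | mod k c f a ih =>
      intro hA B hB
      rw [subst] at hB
      cases hB with
      | refl => exact ⟨.mod k c f a, Or.inl (.refl _), rfl⟩
      | mod i hB =>
        obtain ⟨A', h1, h2⟩ := ih i (fun j hj => hA j ⟨i, hj⟩) B hB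
        exact ⟨A', h1.imp_left (.mod i), h2⟩

lemma size_disj {W : Type} (Γ : List (Fm m W)) : (disj Γ).size = lsize Γ := by
  rw [disj, Fm.size, lsize, ← List.sum_ofFn]
  congr 2
  conv_rhs => rw [← List.ofFn_get Γ, List.map_ofFn]
  rfl

/-- unfolded formulas exist -/
lemma exists_unfold {D : Fin e → Fm m (V ⊕ Fin e)} (hD : Acyclic D) :
    ∃ E : Fin e → Fm m V, ∀ i, E i = subst E (D i) := by
  have hcongr : ∀ (E E' : Fin e → Fm m V) (A : Fm m (V ⊕ Fin e)),
      (∀ j, A.Occurs (.inr j) → E j = E' j) → subst E A = subst E' A := by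
    intro E E' A
    induction A with
    | var x =>
      intro h
      rcases x with x | i
      · rfl
      · exact h i rfl
    | neg A ih => intro h; rw [subst, subst, ih h]
    | or k f ih =>
      intro h
      rw [subst, subst]
      congr 1
      funext i
      exact ih i fun j hj => h j ⟨i, hj⟩
    | mod k c f a ih =>
      intro h
      rw [subst, subst]
      congr 1
      funext i
      exact ih i fun j hj => h j ⟨i, hj⟩
  have key : ∀ N : ℕ, ∃ E : Fin e → Fm m V, ∀ i : Fin e, (i : ℕ) < N → E i = subst E (D i) := by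
    intro N
    induction N with
    | zero => exact ⟨fun _ => .or 0 Fin.elim0, fun i hi => absurd hi (Nat.not_lt_zero _)⟩
    | succ N ih =>
      obtain ⟨E, hE⟩ := ih
      refine ⟨fun i => if (i : ℕ) = N then subst E (D i) else E i, fun i hi => ?_⟩
      have h1 : subst (fun i => if (i : ℕ) = N then subst E (D i) else E i) (D i) =
          subst E (D i) := by
        apply hcongr
        intro j hj
        have : (j : ℕ) < (i : ℕ) := hD i j hj
        rw [if_neg (by omega)]
      rw [h1]
      by_cases hN : (i : ℕ) = N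
      · simp only [hN, if_true]
      · simp only [hN, if_false]
        exact hE i (by omega)
  obtain ⟨E, hE⟩ := key e
  exact ⟨E, fun i => hE i i.2⟩

end

section
variable {L : FirstOrder.Language.{0, 0}} {m n e : ℕ}

/-- unfolding is equivariant -/
lemma permute_subst {E : Fin e → Fm m (Atom L n)} {π : Perm (Fin n)} {τ : Perm (Fin e)}
    (A : Fm m (Atom L n ⊕ Fin e))
    (h : ∀ j, A.Occurs (.inr j) → Same (permute π (E j)) (E (τ j))) :
    Same (permute π (subst E A)) (subst E (move π τ A)) := by
  induction A with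
  | var x =>
    rcases x with x | i
    · exact Same.refl _
    · exact h i rfl
  | neg A ih => exact ih h
  | or k f ih =>
    exact ⟨fun i => ⟨i, ih i fun j hj => h j ⟨i, hj⟩⟩, fun i => ⟨i, ih i fun j hj => h j ⟨i, hj⟩⟩⟩
  | mod k c f a ih =>
    exact ⟨rfl, Equiv.refl _, fun i => ⟨rfl, ih i fun j hj => h j ⟨i, hj⟩⟩⟩

lemma same_E {D : Fin e → Fm m (Atom L n ⊕ Fin e)} (hD : Acyclic D)
    {E : Fin e → Fm m (Atom L n)} (hE : ∀ i, E i = subst E (D i)) {π : Perm (Fin n)}
    {τ : Perm (Fin e)} (h : ∀ i, Same (move π τ (D i)) (D (τ i))) (N : ℕ) :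
    ∀ i : Fin e, (i : ℕ) < N → Same (permute π (E i)) (E (τ i)) := by
  induction N with
  | zero => intro i hi; exact absurd hi (Nat.not_lt_zero _)
  | succ N ih =>
    intro i hi
    rw [hE i, hE (τ i)]
    refine (permute_subst (D i) fun j hj => ih j ?_).trans (same_subst (h i))
    have : (j : ℕ) < (i : ℕ) := hD i j hj
    omega

/-- in an invariant refutation every formula has few images -/
theorem symmetric_of_invariant {Q : Finset (Fin n)} {D : Fin e → Fm m (Atom L n ⊕ Fin e)}
    (hD : Acyclic D) {E : Fin e → Fm m (Atom L n)} (hE : ∀ i, E i = subst E (D i))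
    {P : List (List (Fm m (Atom L n ⊕ Fin e)))} (hinv : Invariant Q D P) :
    Symmetric Q (totalSize P + ∑ i, (D i).size) E P := by
  classical
  let all : List (Fm m (Atom L n ⊕ Fin e)) :=
    (P.map fun Γ => (disj Γ).subs).flatten ++ (List.ofFn fun i => (D i).subs).flatten
  have hlen : all.length = totalSize P + ∑ i, (D i).size := by
    rw [List.length_append, List.length_flatten, List.length_flatten, List.map_ofFn,
      List.sum_ofFn, List.map_map, totalSize_eq]
    congr 1
    · congr 1
      apply List.map_congr_left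
      intro Γ _
      rw [Function.comp_apply, length_subs, size_disj]
    · exact Finset.sum_congr rfl fun i _ => length_subs _
  intro Γ hΓ B hB
  -- `B` comes from a subformula `A'` of a line or of a definition
  have h1 : ∃ X A', Sub A' X ∧ ((∃ Γ ∈ P, X = disj Γ) ∨ ∃ i, X = D i) ∧
      Same B (subst E A') := by
    cases hB with
    | refl =>
      refine ⟨disj Γ, disj Γ, .refl _, Or.inl ⟨Γ, hΓ, rfl⟩, ?_⟩
      have hlen : (Γ.map (subst E)).length = Γ.length := List.length_map _
      refine ⟨fun i => ⟨Fin.cast hlen i, ?_⟩, fun i => ⟨Fin.cast hlen.symm i, ?_⟩⟩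
      · have : (Γ.map (subst E)).get i = subst E (Γ.get (Fin.cast hlen i)) := by simp
        rw [this]
        exact Same.refl _
      · have : (Γ.map (subst E)).get (Fin.cast hlen.symm i) = subst E (Γ.get i) := by simp
        rw [this]
        exact Same.refl _
    | or i hB =>
      have hmem := (Γ.map (subst E)).get_mem i
      obtain ⟨A, hA, he⟩ := List.mem_map.1 hmem
      rw [← he] at hB
      obtain ⟨A', h2, rfl⟩ := sub_subst hD hE e A (fun j _ => j.2) B hB
      rcases h2 with h2 | ⟨i, h2⟩
      · exact ⟨disj Γ, A', sub_disj' hA h2, Or.inl ⟨Γ, hΓ, rfl⟩, Same.refl _⟩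
      · exact ⟨D i, A', h2, Or.inr ⟨i, rfl⟩, Same.refl _⟩
  obtain ⟨X, A', hsub, hX, hsame⟩ := h1
  refine ⟨(all.map (subst E)).toFinset, ?_, fun π hπ => ?_⟩
  · exact (List.toFinset_card_le _).trans (by rw [List.length_map, hlen])
  obtain ⟨τ, hτ1, hτ2⟩ := hinv π hπ
  have hEτ : ∀ j, Same (permute π (E j)) (E (τ j)) := fun j => same_E hD hE hτ1 e j j.2
  have h2 : Same (permute π B) (subst E (move π τ A')) :=
    (Same.permute π hsame).trans (permute_subst A' fun j _ => hEτ j)
  -- the image of `X`
  obtain ⟨Y, hXY, hY⟩ : ∃ Y, Same (move π τ X) Y ∧ ∀ C, Sub C Y → C ∈ all := by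
    rcases hX with ⟨Γ', hΓ', rfl⟩ | ⟨i, rfl⟩
    · obtain ⟨Δ, hΔ, hs⟩ := hτ2 Γ' hΓ'
      refine ⟨disj Δ, hs, fun C hC => List.mem_append_left _ (List.mem_flatten.2
        ⟨_, List.mem_map_of_mem hΔ, mem_subs hC⟩)⟩
    · refine ⟨D (τ i), hτ1 i, fun C hC => List.mem_append_right _ (List.mem_flatten.2
        ⟨(D (τ i)).subs, ?_, mem_subs hC⟩)⟩
      rw [List.mem_ofFn]
      exact ⟨τ i, rfl⟩
  obtain ⟨C, hC, hsC⟩ := same_sub hXY (sub_rename _ hsub)
  refine ⟨subst E C, ?_, h2.trans (same_subst hsC)⟩
  rw [List.mem_toFinset]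
  exact List.mem_map_of_mem (hY C hC)

end

end Pool.Agent.Lib.MP_e81270_lc_Mod
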