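import Pool.Agent.Lib.MP_e81270_lc_Mod.Models
import Pool.Agent.Lib.MP_e81270_lc_Mod.Invar

/-!
# The lower bounds
-/

set_option autoImplicit false

namespace Pool.Agent.Lib.MP_e81270_lc_Mod

open FirstOrder

/-- Every Extended Frege refutation `P` of `F` with counting gates modulo `m` and the extension
definitions `D`, of any depth and size, satisfies:
* if all lines and their subformulas have at most `T` images under the permutations of `Q`, after
  the extension variables have been unfolded, then `T` is at least `2 ^ (2 q / 3)`, where `q` is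
  the number of elements of `Q`;
* if it is invariant under the permutations of `Q`, its size is at least `2 ^ (2 q / 3)`. -/
def Hard {L : FirstOrder.Language.{0, 0}} {m n : ℕ} (Q : Finset (Fin n)) (F : Fm m (Atom L n)) :
    Prop :=
  ∀ (e : ℕ) (D : Fin e → Fm m (Atom L n ⊕ Fin e)) (P : List (List (Fm m (Atom L n ⊕ Fin e)))),
    IsRefutation F D P →
      (∀ (T : ℕ) (E : Fin e → Fm m (Atom L n)), (∀ i, E i = subst E (D i)) →
        Symmetric Q T E P → 2 ^ (2 * Q.card) ≤ T ^ 3) ∧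
      (Acyclic D → Invariant Q D P → 2 ^ (2 * Q.card) ≤ (totalSize P + ∑ i, (D i).size) ^ 3)

theorem hard_of_model (w : ℕ) :
    ∃ q₀ : ℕ, ∀ (L : FirstOrder.Language.{0, 0}) [L.IsRelational] (Ψ : L.Sentence),
      wd Ψ ≤ w → ∀ (m n k : ℕ) (Q : Finset (Fin n)), 0 < m → 2 * m ≤ Q.card → q₀ ≤ Q.card →
      Q.card ≤ 2 ^ k →
      (∃ (M : Type) (_ : L.Structure M), Finite M ∧ M ⊨ Ψ ∧ n ≤ Nat.card M ∧
        m ^ k ∣ Nat.card M - n) → Hard Q (translation m Ψ n) := by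
  obtain ⟨q₀, h⟩ := lower w
  refine ⟨q₀, fun L _ Ψ hw m n k Q hm hmQ hQ hk hM e D P hP => ?_⟩
  have h1 := fun (T : ℕ) (E : Fin e → Fm m (Atom L n)) =>
    h L Ψ hw m n k Q hm hmQ hQ hk hM e T D E P hP
  refine ⟨h1, fun hD hI => ?_⟩
  obtain ⟨E, hE⟩ := exists_unfold hD
  exact h1 _ E hE (symmetric_of_invariant hD hE hI)

theorem hard_pigeonhole :
    ∃ q₀ : ℕ, ∀ (m N n : ℕ) (Q : Finset (Fin n)), 0 < m → 2 * m ≤ Q.card → q₀ ≤ Q.card →
      Hard Q (translation m (pigeonhole N) n) := by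
  obtain ⟨q₀, h⟩ := hard_of_model 2
  refine ⟨q₀, fun m N n Q hm hmQ hQ => ?_⟩
  refine h _ _ (wd_pigeonhole N) m n Q.card Q hm hmQ hQ Nat.lt_two_pow_self.le ?_
  have h1 : 1 * N ≤ m ^ Q.card * N := Nat.mul_le_mul_right _ (Nat.one_le_pow _ _ hm)
  obtain ⟨S, hS⟩ := pigeonhole_model (N := N) (K := n + m ^ Q.card * N) (by omega)
  refine ⟨Fin (n + m ^ Q.card * N), S, inferInstance, hS, ?_, ?_⟩
  · rw [Nat.card_eq_fintype_card, Fintype.card_fin]
    omega
  · rw [Nat.card_eq_fintype_card, Fintype.card_fin, Nat.add_sub_cancel_left]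
    exact Dvd.intro N rfl

theorem hard_counting (r : ℕ) (hr : 0 < r) :
    ∃ q₀ : ℕ, ∀ (m n : ℕ) (Q : Finset (Fin n)), 0 < m → 2 * m ≤ Q.card → q₀ ≤ Q.card →
      (∀ k, Nat.gcd r (m ^ k) ∣ n) → Hard Q (translation m (counting r) n) := by
  obtain ⟨q₀, h⟩ := hard_of_model (wd (counting r))
  refine ⟨q₀, fun m n Q hm hmQ hQ hco => ?_⟩
  refine h _ _ le_rfl m n Q.card Q hm hmQ hQ Nat.lt_two_pow_self.le ?_
  obtain ⟨x, hx1, hx2⟩ := Nat.chineseRemainder' (n := r) (m := m ^ Q.card) (a := 0) (b := n)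
    ((Nat.modEq_zero_iff_dvd.2 (hco Q.card)).symm)
  obtain ⟨N, hN⟩ : ∃ N, N = x + r * m ^ Q.card * n := ⟨_, rfl⟩
  have hpos : 0 < r * m ^ Q.card := Nat.mul_pos hr (Nat.pow_pos hm)
  have hNn : n ≤ N := by
    have : 1 * n ≤ r * m ^ Q.card * n := Nat.mul_le_mul_right _ hpos
    omega
  have hNr : r ∣ N := by
    rw [hN]
    refine Nat.dvd_add ((Nat.modEq_zero_iff_dvd).1 hx1) ?_
    rw [mul_assoc]
    exact Dvd.intro _ rfl
  have hNm : m ^ Q.card ∣ N - n := by
    apply (Nat.modEq_iff_dvd' hNn).1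
    rw [hN]
    have h2 : r * m ^ Q.card * n ≡ 0 [MOD m ^ Q.card] := by
      apply (Nat.modEq_zero_iff_dvd).2
      rw [mul_comm r, mul_assoc]
      exact Dvd.intro _ rfl
    have h3 := Nat.ModEq.add hx2 h2
    rw [add_zero] at h3
    exact h3.symm
  obtain ⟨K, hK⟩ := hNr
  obtain ⟨S, hS⟩ := counting_model r K
  have hcard : Nat.card (Fin K × Fin r) = N := by
    rw [Nat.card_eq_fintype_card, Fintype.card_prod, Fintype.card_fin, Fintype.card_fin, hK,
      mul_comm]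
  exact ⟨Fin K × Fin r, S, inferInstance, hS, by rw [hcard]; exact hNn, by rw [hcard]; exact hNm⟩

end Pool.Agent.Lib.MP_e81270_lc_Mod
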