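import Pool.Agent.Lib.MP_e81270_lc_Mod.Gates

/-!
# The axiom for the sum over a union of families is sound for the values in a larger structure
-/

set_option autoImplicit false
set_option linter.unusedSectionVars false

namespace Pool.Agent.Lib.MP_e81270_lc_Mod

open FirstOrder Equiv Equiv.Perm

section
variable {L : FirstOrder.Language.{0, 0}} {m n : ℕ} {Q : Finset (Fin n)} {M : Type}
  [L.Structure M] [Fintype M] [DecidableEq M]

lemma isDist_same {k l : ℕ} {c : Fin k → ZMod m} {c' : Fin l → ZMod m}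
    {f : Fin k → Fm m (Atom L n)} {g : Fin l → Fm m (Atom L n)} {a b : ZMod m}
    {π : Perm (Fin n)} (hπ : ∀ x ∉ Q, π x = x)
    (h : Same (permute π (.mod k c f a)) (.mod l c' g b)) {κ : Fin n → M} {H : Finset M → ZMod m}
    (hH : IsDist (supp Q (.mod k c f a)) (fun i => supp Q (f i))
      (fun i κ => wt (val Q (f i) κ) (c i)) (κ ∘ π) H) :
    IsDist (supp Q (.mod l c' g b)) (fun i => supp Q (g i))
      (fun i κ => wt (val Q (g i) κ) (c' i)) κ H := by
  have h1 := (IsDist.perm_iff π).2 hH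
  rw [← supp_permute _ hπ, supp_same Q h] at h1
  obtain ⟨_, σ, h2⟩ := h
  refine h1.congr σ fun i => ⟨?_, fun κ _ => ?_⟩
  · rw [← supp_permute (f i) hπ]
    exact (supp_same Q (h2 i).2).symm
  · rw [← (h2 i).1, ← propext (val_same (h2 i).2 κ)]
    rw [← propext (val_permute (f i) hπ κ)]
    rfl

lemma val_iff_dist {r k : ℕ} {c : Fin k → ZMod m}
    {f : Fin k → Fm m (Atom L n)} {a : ZMod m} (hn : 3 * r + 2 ≤ Q.card)
    (hA : Nice Q r (.mod k c f a)) (hf : ∀ i, Nice Q r (f i)) (ι : Fin n → M) (b : ZMod m) :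
    val Q (.mod k c f b) ι ↔ ∑ V, dist (supp Q (.mod k c f a)) (fun i => supp Q (f i))
      (fun i κ => wt (val Q (f i) κ) (c i)) ι V = b := by
  have h := isDist_dist (ι := ι) (symFam_mod (M := M) (by omega) hA hf) (card_supp_le hA hn)
  rw [val, supp_mod c f b a]
  constructor
  · rintro ⟨H, h3, h4⟩
    rw [h3.unique h] at h4
    exact h4
  · intro h3
    exact ⟨_, h, h3⟩

lemma sum_wt_values [NeZero m] (p : ZMod m → Prop) (v : ZMod m) (hp : ∀ b, p b ↔ v = b) :
    ∑ b : Fin m, wt (p ((b : ℕ) : ZMod m)) (((b : ℕ) : ZMod m)) = v := by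
  rw [Finset.sum_eq_single (⟨v.val, ZMod.val_lt v⟩ : Fin m)]
  · have h1 : (((⟨v.val, ZMod.val_lt v⟩ : Fin m) : ℕ) : ZMod m) = v := ZMod.natCast_zmod_val v
    rw [h1, wt_true ((hp v).2 rfl)]
  · intro b _ hb
    apply wt_false
    rw [hp]
    intro he
    apply hb
    apply Fin.ext
    show (b : ℕ) = v.val
    rw [he, ZMod.val_natCast, Nat.mod_eq_of_lt b.2]
  · intro h
    exact absurd (Finset.mem_univ _) h

variable {r d : ℕ} [NeZero m]

theorem valid_modSum (hM : Fintype.card M = n + d) (hn : 5 * r + 2 ≤ Q.card)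
    (hd : ∀ e' ≤ 2 * r, (((d + e').choose d : ℕ) : ZMod m) = 1)
    {k j j' : ℕ} {l : Fin k → ℕ} (σ : Fin j ≃ Σ i, Fin (l i))
    (τ : Fin j' ≃ Fin k × Fin m) (c : (i : Fin k) → Fin (l i) → ZMod m)
    (f : (i : Fin k) → Fin (l i) → Fm m (Atom L n)) (a : ZMod m)
    (h : NiceLine Q r [
        .neg (.mod j (fun x => c (σ x).1 (σ x).2) (fun x => f (σ x).1 (σ x).2) a),
        .mod j' (fun y => ((τ y).2 : ℕ))
          (fun y => .mod (l (τ y).1) (c (τ y).1) (f (τ y).1) ((τ y).2 : ℕ)) a]) :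
    Valid Q M [
        .neg (.mod j (fun x => c (σ x).1 (σ x).2) (fun x => f (σ x).1 (σ x).2) a),
        .mod j' (fun y => ((τ y).2 : ℕ))
          (fun y => .mod (l (τ y).1) (c (τ y).1) (f (τ y).1) ((τ y).2 : ℕ)) a] := by
  obtain ⟨F, hF⟩ : ∃ F : Fm m (Atom L n), F =
    .mod j (fun x => c (σ x).1 (σ x).2) (fun x => f (σ x).1 (σ x).2) a := ⟨_, rfl⟩
  obtain ⟨N, hN⟩ : ∃ N : Fm m (Atom L n), N = .mod j' (fun y => ((τ y).2 : ℕ))
    (fun y => .mod (l (τ y).1) (c (τ y).1) (f (τ y).1) ((τ y).2 : ℕ)) a := ⟨_, rfl⟩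
  rw [← hF, ← hN] at h ⊢
  -- all formulas are nice
  have nF : Nice Q r F := h _ (sub_disj List.mem_cons_self (.neg (.refl _)))
  have nN : Nice Q r N := h.mem (List.mem_cons_of_mem _ (List.mem_singleton_self _))
  have nG : ∀ y, Nice Q r (.mod (l (τ y).1) (c (τ y).1) (f (τ y).1) ((τ y).2 : ℕ)) := by
    intro y
    refine h _ (sub_disj (A := N) (List.mem_cons_of_mem _ (List.mem_singleton_self _)) ?_)
    rw [hN]
    exact .mod y (.refl _)
  have nf : ∀ x, Nice Q r (f (σ x).1 (σ x).2) := by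
    intro x
    refine h _ (sub_disj (A := .neg F) List.mem_cons_self (.neg ?_))
    rw [hF]
    exact .mod x (.refl _)
  have nI : ∀ i, Nice Q r (.mod (l i) (c i) (f i) 0) := by
    intro i
    have h1 := nG (τ.symm (i, 0))
    rw [Equiv.apply_symm_apply] at h1
    exact h1.mod 0
  have nf' : ∀ i x, Nice Q r (f i x) := by
    intro i x
    have h1 := nf (σ.symm ⟨i, x⟩)
    rwa [Equiv.apply_symm_apply] at h1
  -- the families
  have hin : ∀ i, SymFam (M := M) Qᶜ (supp Q (.mod (l i) (c i) (f i) 0))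
      (fun x => supp Q (f i x)) (fun x κ => wt (val Q (f i x) κ) (c i x)) r :=
    fun i => symFam_mod (by omega) (nI i) (nf' i)
  have hW : ∀ i, (supp Q (.mod (l i) (c i) (f i) 0)).card + 2 * r + 2 ≤ n :=
    fun i => card_supp_le (nI i) (by omega)
  have hout : ∀ V : Finset M, SymFam (M := M) Qᶜ (supp Q N)
      (fun i => supp Q (.mod (l i) (c i) (f i) 0))
      (fun i κ => dist (supp Q (.mod (l i) (c i) (f i) 0)) (fun x => supp Q (f i x))
        (fun x κ => wt (val Q (f i x) κ) (c i x)) κ V) r := by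
    intro V
    refine ⟨compl_subset_supp Q _, ?_, ?_, fun i => card_sdiff_compl (nI i)⟩
    · intro i κ κ' hκ
      have h1 := (isDist_dist (ι := κ) (hin i) (hW i)).congr_ι hκ
      rw [h1.unique (isDist_dist (ι := κ') (hin i) (hW i))]
    · intro π h1 h2
      have hπQ : ∀ x ∉ Q, π x = x := fun x hx =>
        h2 x (compl_subset_supp Q _ (Finset.mem_compl.2 hx))
      have h3 : Same (permute π N) N := nN.2 π h1 h2
      have h3 := h3
      rw [hN] at h3
      obtain ⟨_, ρ, h4⟩ := h3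
      -- the action on the outer index
      have h5 : ∀ i : Fin k, Same (permute π (.mod (l i) (c i) (f i) 0))
          (.mod (l (τ (ρ (τ.symm (i, 0)))).1) (c (τ (ρ (τ.symm (i, 0)))).1)
            (f (τ (ρ (τ.symm (i, 0)))).1) 0) ∧ (τ (ρ (τ.symm (i, 0)))).2 = 0 := by
        intro i
        obtain ⟨k1, k2⟩ := h4 (τ.symm (i, 0))
        have k1 : (((τ (τ.symm (i, 0))).2 : ℕ) : ZMod m) =
          (((τ (ρ (τ.symm (i, 0)))).2 : ℕ) : ZMod m) := k1
        have k2 : Same (permute π (.mod (l (τ (τ.symm (i, 0))).1) (c (τ (τ.symm (i, 0))).1)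
            (f (τ (τ.symm (i, 0))).1) (((τ (τ.symm (i, 0))).2 : ℕ) : ZMod m)))
          (.mod (l (τ (ρ (τ.symm (i, 0)))).1) (c (τ (ρ (τ.symm (i, 0)))).1)
            (f (τ (ρ (τ.symm (i, 0)))).1) (((τ (ρ (τ.symm (i, 0)))).2 : ℕ) : ZMod m)) := k2
        rw [Equiv.apply_symm_apply] at k1 k2
        have k3 : (τ (ρ (τ.symm (i, 0)))).2 = 0 := by
          apply Fin.ext
          have k4 := congrArg ZMod.val k1
          rw [ZMod.val_natCast, ZMod.val_natCast, Nat.mod_eq_of_lt (Fin.isLt _),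
            Nat.mod_eq_of_lt (Fin.isLt _)] at k4
          exact k4.symm
        exact ⟨⟨rfl, k2.2⟩, k3⟩
      let σ' : Fin k → Fin k := fun i => (τ (ρ (τ.symm (i, 0)))).1
      have hσ' : Function.Injective σ' := by
        intro i i' hii
        have e1 : τ (ρ (τ.symm (i, 0))) = τ (ρ (τ.symm (i', 0))) :=
          Prod.ext hii ((h5 i).2.trans (h5 i').2.symm)
        have e2 := τ.symm.injective (ρ.injective (τ.injective e1))
        exact (Prod.ext_iff.1 e2).1
      refine ⟨Equiv.ofBijective σ' (Finite.injective_iff_bijective.1 hσ'), fun i => ⟨?_, ?_⟩⟩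
      · rw [Equiv.ofBijective_apply, ← supp_permute _ hπQ]
        exact (supp_same Q (h5 i).1).symm
      · intro κ _
        rw [Equiv.ofBijective_apply]
        have e1 := isDist_same hπQ (h5 i).1
          (isDist_dist (ι := κ ∘ π) (hin i) (hW i))
        rw [e1.unique (isDist_dist (ι := κ) (hin (σ' i)) (hW (σ' i)))]
  -- the two values
  refine valid_of_val fun ι hι => ?_
  by_cases hv : val Q F ι
  swap
  · exact ⟨_, List.mem_cons_self, hv⟩
  refine ⟨N, List.mem_cons_of_mem _ (List.mem_singleton_self _), ?_⟩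
  have h1 := union_inter_card_le (Q := Q) (supp Q F) (supp Q N)
  have h2 := nF.1
  have h3 := nN.1
  obtain ⟨T, hT⟩ : ∃ T, T = supp Q F ∪ supp Q N := ⟨_, rfl⟩
  rw [← hT] at h1
  obtain ⟨D⟩ := get_design (Q := Q) (r := r) hι hM (T := T) (by omega)
  have hFT : supp Q F ⊆ T := hT ▸ Finset.subset_union_left
  have hNT : supp Q N ⊆ T := hT ▸ Finset.subset_union_right
  have hfub := fubini hin hW hout (card_supp_le nN (by omega)) D hd hNT le_rfl
  have hv' : ∑ X ∈ D.Y.powersetCard d, ∑ x, wt (val Q (f (σ x).1 (σ x).2) (D.κ X))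
      (c (σ x).1 (σ x).2) = a := by
    rw [hF] at hv nF hFT
    rwa [val_mod_iff (by omega) nF nf D hd hFT (by omega)] at hv
  have hgoal : ∑ X ∈ D.Y.powersetCard d, ∑ y, wt (val Q
      (.mod (l (τ y).1) (c (τ y).1) (f (τ y).1) (((τ y).2 : ℕ) : ZMod m)) (D.κ X))
      (((τ y).2 : ℕ) : ZMod m) = a := by
    rw [← hv']
    have e1 : ∑ X ∈ D.Y.powersetCard d, ∑ x, wt (val Q (f (σ x).1 (σ x).2) (D.κ X))
        (c (σ x).1 (σ x).2) = ∑ X ∈ D.Y.powersetCard d, ∑ i, ∑ x,
          wt (val Q (f i x) (D.κ X)) (c i x) := by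
      refine Finset.sum_congr rfl fun X _ => ?_
      rw [Equiv.sum_comp σ fun z => wt (val Q (f z.1 z.2) (D.κ X)) (c z.1 z.2),
        Fintype.sum_sigma]
    rw [e1, ← hfub]
    refine Finset.sum_congr rfl fun X _ => ?_
    rw [Equiv.sum_comp τ fun z => wt (val Q (.mod (l z.1) (c z.1) (f z.1)
      ((z.2 : ℕ) : ZMod m)) (D.κ X)) ((z.2 : ℕ) : ZMod m), Fintype.sum_prod_type]
    refine Finset.sum_congr rfl fun i _ => ?_
    exact sum_wt_values (fun b => val Q (.mod (l i) (c i) (f i) b) (D.κ X)) _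
      fun b => val_iff_dist (by omega) (nI i) (nf' i) (D.κ X) b
  rw [hN] at nN hNT ⊢
  rw [val_mod_iff (by omega) nN nG D hd hNT (by omega)]
  exact hgoal

end

end Pool.Agent.Lib.MP_e81270_lc_Mod
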