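import Pool.Agent.Lib.MP_e81270_lc_Mod.Sem

/-!
# The axioms and rules for counting gates are sound for the values in a larger structure
-/

set_option autoImplicit false
set_option linter.unusedSectionVars false

namespace Pool.Agent.Lib.MP_e81270_lc_Mod

open FirstOrder Equiv Equiv.Perm

section
variable {L : FirstOrder.Language.{0, 0}} {m n : ℕ} {Q : Finset (Fin n)} {M : Type}
  [L.Structure M] [Fintype M] [DecidableEq M]

lemma val_disj {Γ : List (Fm m (Atom L n))} {ι : Fin n → M} :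
    val Q (disj Γ) ι ↔ ∃ κ : Fin n → M, Function.Injective κ ∧
      (∀ x ∈ supp Q (disj Γ), κ x = ι x) ∧ ∃ A ∈ Γ, val Q A κ := by
  rw [disj, val]
  constructor
  · rintro ⟨κ, h1, h2, i, h3⟩
    exact ⟨κ, h1, h2, Γ.get i, Γ.get_mem i, h3⟩
  · rintro ⟨κ, h1, h2, A, hA, h3⟩
    obtain ⟨i, rfl⟩ := List.mem_iff_get.1 hA
    exact ⟨κ, h1, h2, i, h3⟩

variable (Q) in
/-- a line which holds at all injections -/
def Valid (M : Type) [L.Structure M] [Fintype M] [DecidableEq M]
    (Γ : List (Fm m (Atom L n))) : Prop :=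
  ∀ ι : Fin n → M, Function.Injective ι → val Q (disj Γ) ι

variable (Q) in
/-- all subformulas have small support -/
def NiceLine (r : ℕ) (Γ : List (Fm m (Atom L n))) : Prop :=
  ∀ B, Sub B (disj Γ) → Nice Q r B

lemma Sub.trans {V : Type} {A B C : Fm m V} (h : Sub A B) (h' : Sub B C) : Sub A C := by
  induction h' with
  | refl => exact h
  | neg _ ih => exact .neg ih
  | or i _ ih => exact .or i ih
  | mod i _ ih => exact .mod i ih

lemma sub_disj {V : Type} {Γ : List (Fm m V)} {A B : Fm m V} (hA : A ∈ Γ) (h : Sub B A) :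
    Sub B (disj Γ) := by
  obtain ⟨i, rfl⟩ := List.mem_iff_get.1 hA
  exact .or i h

lemma NiceLine.self {r : ℕ} {Γ : List (Fm m (Atom L n))} (h : NiceLine Q r Γ) :
    Nice Q r (disj Γ) := h _ (.refl _)

lemma NiceLine.mem {r : ℕ} {Γ : List (Fm m (Atom L n))} (h : NiceLine Q r Γ)
    {A : Fm m (Atom L n)} (hA : A ∈ Γ) : Nice Q r A := h _ (sub_disj hA (.refl _))

lemma valid_of_val {Γ : List (Fm m (Atom L n))}
    (h : ∀ ι : Fin n → M, Function.Injective ι → ∃ A ∈ Γ, val Q A ι) : Valid Q M Γ := by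
  intro ι hι
  rw [val_disj]
  exact ⟨ι, hι, fun _ _ => rfl, h ι hι⟩

lemma use_line (hM : n ≤ Fintype.card M) {r : ℕ} {Γ : List (Fm m (Atom L n))}
    (hΓ : NiceLine Q r Γ) (hv : Valid Q M Γ)
    {ι : Fin n → M} (hι : Function.Injective ι) (R : Finset (Fin n)) (h1 : 2 * r + 2 ≤ Q.card)
    (h2 : (R ∩ Q).card + 2 * r ≤ Q.card) :
    ∃ κ : Fin n → M, Function.Injective κ ∧ (∀ x ∈ R, κ x = ι x) ∧ ∃ A ∈ Γ, val Q A κ := by
  obtain ⟨κ, h3, h4, i, h5⟩ := exchange hM hΓ.self (fun i => hΓ.mem (Γ.get_mem i)) hι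
    (hv ι hι) R h1 h2
  exact ⟨κ, h3, fun x hx => h4 x (Finset.mem_union_right _ hx), Γ.get i, Γ.get_mem i, h5⟩

variable {r d : ℕ}

/-- designs exist -/
lemma get_design {ι : Fin n → M} (hι : Function.Injective ι) (hM : Fintype.card M = n + d)
    {T : Finset (Fin n)} (hT : (T ∩ Q).card + 2 * r ≤ Q.card) :
    Nonempty (Design T ι d (2 * r)) := by
  have := card_split (Q := Q) T
  exact exists_design hι hM (by omega)

lemma sum_const_design {T : Finset (Fin n)} {ι : Fin n → M} {e : ℕ} (D : Design T ι d e)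
    (hd : ∀ e' ≤ e, (((d + e').choose d : ℕ) : ZMod m) = 1) (a : ZMod m) :
    ∑ _X ∈ D.Y.powersetCard d, a = a := by
  rw [Finset.sum_const, Finset.card_powersetCard, D.card_Y, nsmul_eq_mul, hd e le_rfl, one_mul]

lemma three_union {A B C : Finset (Fin n)} (hA : (A ∩ Q).card < r) (hB : (B ∩ Q).card < r)
    (hC : (C ∩ Q).card < r) : ((A ∪ B ∪ C) ∩ Q).card ≤ 3 * r := by
  have h1 := union_inter_card_le (Q := Q) (A ∪ B) C
  have h2 := union_inter_card_le (Q := Q) A B
  omega

variable (hM : Fintype.card M = n + d) (hn : 5 * r + 2 ≤ Q.card)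
  (hd : ∀ e' ≤ 2 * r, (((d + e').choose d : ℕ) : ZMod m) = 1)

include hM hn hd

lemma valid_modZero (c : Fin 0 → ZMod m) (f : Fin 0 → Fm m (Atom L n))
    (h : NiceLine Q r [.mod 0 c f 0]) : Valid Q M [.mod 0 c f 0] := by
  refine valid_of_val fun ι hι => ⟨_, List.mem_singleton_self _, ?_⟩
  have hA := h.mem (List.mem_singleton_self _)
  have h0 := hA.1
  obtain ⟨D⟩ := get_design (Q := Q) (r := r) hι hM (T := supp Q (.mod 0 c f 0)) (by omega)
  rw [val_mod_iff (by omega) hA (fun i => i.elim0) D hd (Finset.Subset.refl _) (by omega)]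
  simp

lemma valid_modOne (c : ZMod m) (A : Fm m (Atom L n)) {a : ZMod m}
    (hA : Nice Q r A) (h : Nice Q r (.mod 1 (fun _ => c) (fun _ => A) a)) {ι : Fin n → M}
    (hι : Function.Injective ι) :
    val Q (.mod 1 (fun _ => c) (fun _ => A) a) ι ↔ wt (val Q A ι) c = a := by
  have h0 := h.1
  have h1 := hA.1
  have h2 := union_inter_card_le (Q := Q) (supp Q (.mod 1 (fun _ => c) (fun _ => A) a))
    (supp Q A)
  obtain ⟨D⟩ := get_design (Q := Q) (r := r) hι hM
    (T := supp Q (.mod 1 (fun _ => c) (fun _ => A) a) ∪ supp Q A) (by omega)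
  rw [val_mod_iff (by omega) h (fun _ => hA) D hd Finset.subset_union_left (by omega)]
  have h3 : ∑ X ∈ D.Y.powersetCard d, ∑ _i : Fin 1, wt (val Q A (D.κ X)) c =
      ∑ _X ∈ D.Y.powersetCard d, wt (val Q A ι) c := by
    refine Finset.sum_congr rfl fun X hX => ?_
    rw [Finset.sum_const, Finset.card_univ, Fintype.card_fin, one_smul]
    rw [propext (val_loc (by omega) fun x hx =>
      (D.adm X hX).2 x (Finset.mem_union_right _ hx))]
  rw [h3, sum_const_design D hd]

lemma valid_modTrue (c : ZMod m) (A : Fm m (Atom L n))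
    (h : NiceLine Q r [.neg A, .mod 1 (fun _ => c) (fun _ => A) c]) :
    Valid Q M [.neg A, .mod 1 (fun _ => c) (fun _ => A) c] := by
  refine valid_of_val fun ι hι => ?_
  have hA : Nice Q r A := h _ (sub_disj List.mem_cons_self (.neg (.refl _)))
  have hB := h.mem (List.mem_cons_of_mem _ (List.mem_singleton_self _))
  by_cases hv : val Q A ι
  · refine ⟨_, List.mem_cons_of_mem _ (List.mem_singleton_self _), ?_⟩
    rw [valid_modOne hM hn hd c A hA hB hι, wt_true hv]
  · exact ⟨_, List.mem_cons_self, hv⟩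

lemma valid_modFalse (c : ZMod m) (A : Fm m (Atom L n))
    (h : NiceLine Q r [A, .mod 1 (fun _ => c) (fun _ => A) 0]) :
    Valid Q M [A, .mod 1 (fun _ => c) (fun _ => A) 0] := by
  refine valid_of_val fun ι hι => ?_
  have hA : Nice Q r A := h.mem List.mem_cons_self
  have hB := h.mem (List.mem_cons_of_mem _ (List.mem_singleton_self _))
  by_cases hv : val Q A ι
  · exact ⟨_, List.mem_cons_self, hv⟩
  · refine ⟨_, List.mem_cons_of_mem _ (List.mem_singleton_self _), ?_⟩
    rw [valid_modOne hM hn hd c A hA hB hι, wt_false hv]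

lemma valid_modAdd {k l j : ℕ} (σ : Fin j ≃ Fin k ⊕ Fin l) (c : Fin k → ZMod m)
    (c' : Fin l → ZMod m) (f : Fin k → Fm m (Atom L n)) (g : Fin l → Fm m (Atom L n))
    (a b : ZMod m) (h : NiceLine Q r [.neg (.mod k c f a), .neg (.mod l c' g b),
        .mod j (fun x => Sum.elim c c' (σ x)) (fun x => Sum.elim f g (σ x)) (a + b)]) :
    Valid Q M [.neg (.mod k c f a), .neg (.mod l c' g b),
        .mod j (fun x => Sum.elim c c' (σ x)) (fun x => Sum.elim f g (σ x)) (a + b)] := by
  refine valid_of_val fun ι hι => ?_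
  by_cases hv1 : val Q (.mod k c f a) ι
  swap
  · exact ⟨_, List.mem_cons_self, hv1⟩
  by_cases hv2 : val Q (.mod l c' g b) ι
  swap
  · exact ⟨_, List.mem_cons_of_mem _ List.mem_cons_self, hv2⟩
  refine ⟨_, List.mem_cons_of_mem _ (List.mem_cons_of_mem _ List.mem_cons_self), ?_⟩
  have hA : Nice Q r (.mod k c f a) := h _ (sub_disj List.mem_cons_self (.neg (.refl _)))
  have hB : Nice Q r (.mod l c' g b) :=
    h _ (sub_disj (List.mem_cons_of_mem _ List.mem_cons_self) (.neg (.refl _)))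
  have hC := h.mem (List.mem_cons_of_mem _ (List.mem_cons_of_mem _ List.mem_cons_self))
  have hf : ∀ i, Nice Q r (f i) := fun i =>
    h _ (sub_disj List.mem_cons_self (.neg (.mod i (.refl _))))
  have hg : ∀ i, Nice Q r (g i) := fun i =>
    h _ (sub_disj (List.mem_cons_of_mem _ List.mem_cons_self) (.neg (.mod i (.refl _))))
  have hfg : ∀ x, Nice Q r (Sum.elim f g (σ x)) := by
    intro x
    rcases σ x with i | i
    · exact hf i
    · exact hg i
  have h3 := three_union (Q := Q) hA.1 hB.1 hC.1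
  obtain ⟨T, hT⟩ : ∃ T, T = supp Q (.mod k c f a) ∪ supp Q (.mod l c' g b) ∪
    supp Q (.mod j (fun x => Sum.elim c c' (σ x)) (fun x => Sum.elim f g (σ x)) (a + b)) :=
    ⟨_, rfl⟩
  rw [← hT] at h3
  obtain ⟨D⟩ := get_design (Q := Q) (r := r) hι hM (T := T) (by omega)
  rw [val_mod_iff (by omega) hC hfg D hd (hT ▸ Finset.subset_union_right) (by omega)]
  rw [val_mod_iff (by omega) hA hf D hd
    (hT ▸ Finset.subset_union_left.trans Finset.subset_union_left) (by omega)] at hv1
  rw [val_mod_iff (by omega) hB hg D hd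
    (hT ▸ Finset.subset_union_right.trans Finset.subset_union_left) (by omega)] at hv2
  rw [← hv1, ← hv2, ← Finset.sum_add_distrib]
  refine Finset.sum_congr rfl fun X _ => ?_
  rw [Equiv.sum_comp σ fun y => wt (val Q (Sum.elim f g y) (D.κ X)) (Sum.elim c c' y),
    Fintype.sum_sum_type]
  rfl

lemma valid_modReplace {k l : ℕ} (σ : Fin k ≃ Fin l) (c : Fin l → ZMod m)
    {f : Fin k → Fm m (Atom L n)} {g : Fin l → Fm m (Atom L n)} (a : ZMod m)
    {Γ : List (Fm m (Atom L n))} (h1 : ∀ i, NiceLine Q r (.neg (f i) :: g (σ i) :: Γ))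
    (h2 : ∀ i, NiceLine Q r (f i :: .neg (g (σ i)) :: Γ))
    (h : NiceLine Q r (.neg (.mod k (fun i => c (σ i)) f a) :: .mod l c g a :: Γ))
    (hv1 : ∀ i, Valid Q M (.neg (f i) :: g (σ i) :: Γ))
    (hv2 : ∀ i, Valid Q M (f i :: .neg (g (σ i)) :: Γ)) :
    Valid Q M (.neg (.mod k (fun i => c (σ i)) f a) :: .mod l c g a :: Γ) := by
  intro ι hι
  by_contra hcon
  obtain ⟨C, hC⟩ : ∃ C, C = disj (.neg (.mod k (fun i => c (σ i)) f a) :: .mod l c g a :: Γ) :=
    ⟨_, rfl⟩
  have hCn : Nice Q r C := hC ▸ h.self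
  have key : ∀ κ : Fin n → M, Function.Injective κ → (∀ x ∈ supp Q C, κ x = ι x) →
      ∀ B ∈ (.neg (.mod k (fun i => c (σ i)) f a) :: .mod l c g a :: Γ), ¬ val Q B κ := by
    intro κ hκ hx B hB hvB
    apply hcon
    rw [val_disj, ← hC]
    exact ⟨κ, hκ, hx, B, hB, hvB⟩
  have hA : Nice Q r (.mod k (fun i => c (σ i)) f a) :=
    h _ (sub_disj List.mem_cons_self (.neg (.refl _)))
  have hB : Nice Q r (.mod l c g a) :=
    h _ (sub_disj (List.mem_cons_of_mem _ List.mem_cons_self) (.refl _))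
  have hf : ∀ i, Nice Q r (f i) := fun i =>
    h _ (sub_disj List.mem_cons_self (.neg (.mod i (.refl _))))
  have hg : ∀ i, Nice Q r (g i) := fun i =>
    h _ (sub_disj (List.mem_cons_of_mem _ List.mem_cons_self) (.mod i (.refl _)))
  have v1 := key ι hι (fun _ _ => rfl) _ List.mem_cons_self
  have v2 := key ι hι (fun _ _ => rfl) _ (List.mem_cons_of_mem _ List.mem_cons_self)
  rw [val, not_not] at v1
  have h3 := three_union (Q := Q) hCn.1 hA.1 hB.1
  obtain ⟨D⟩ := get_design (Q := Q) (r := r) hι hM (T := supp Q C ∪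
    supp Q (.mod k (fun i => c (σ i)) f a) ∪ supp Q (.mod l c g a)) (by omega)
  rw [val_mod_iff (by omega) hA hf D hd
    (Finset.subset_union_right.trans Finset.subset_union_left) (by omega)] at v1
  rw [val_mod_iff (by omega) hB hg D hd Finset.subset_union_right (by omega)] at v2
  apply v2
  refine Eq.trans ?_ v1
  refine Finset.sum_congr rfl fun X hX => ?_
  rw [← Equiv.sum_comp σ fun i => wt (val Q (g i) (D.κ X)) (c i)]
  refine Finset.sum_congr rfl fun i _ => ?_
  have hκ := (D.adm X hX).1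
  have hκC : ∀ x ∈ supp Q C, D.κ X x = ι x := fun x hx =>
    (D.adm X hX).2 x (Finset.mem_union_left _ (Finset.mem_union_left _ hx))
  have h4 := three_union (Q := Q) hCn.1 (hf i).1 (hg (σ i)).1
  have hiff : val Q (g (σ i)) (D.κ X) ↔ val Q (f i) (D.κ X) := by
    by_contra hne
    have hcase : (¬ val Q (g (σ i)) (D.κ X) ∧ val Q (f i) (D.κ X)) ∨
        (val Q (g (σ i)) (D.κ X) ∧ ¬ val Q (f i) (D.κ X)) := by tauto
    rcases hcase with ⟨n1, n2⟩ | ⟨n1, n2⟩
    · obtain ⟨κ, k1, k2, B, hB', k3⟩ := use_line (by omega) (h1 i) (hv1 i) hκ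
        (supp Q C ∪ supp Q (f i) ∪ supp Q (g (σ i))) (by omega) (by omega)
      rw [List.mem_cons, List.mem_cons] at hB'
      rcases hB' with rfl | rfl | hB'
      · rw [val, val_loc (by omega) fun x hx => k2 x (Finset.mem_union_left _
          (Finset.mem_union_right _ hx))] at k3
        exact k3 n2
      · rw [val_loc (by omega) fun x hx => k2 x (Finset.mem_union_right _ hx)] at k3
        exact n1 k3
      · refine key κ k1 (fun x hx => ?_) B
          (List.mem_cons_of_mem _ (List.mem_cons_of_mem _ hB')) k3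
        rw [k2 x (Finset.mem_union_left _ (Finset.mem_union_left _ hx)), hκC x hx]
    · obtain ⟨κ, k1, k2, B, hB', k3⟩ := use_line (by omega) (h2 i) (hv2 i) hκ
        (supp Q C ∪ supp Q (f i) ∪ supp Q (g (σ i))) (by omega) (by omega)
      rw [List.mem_cons, List.mem_cons] at hB'
      rcases hB' with rfl | rfl | hB'
      · rw [val_loc (by omega) fun x hx => k2 x (Finset.mem_union_left _
          (Finset.mem_union_right _ hx))] at k3
        exact n2 k3
      · rw [val, val_loc (by omega) fun x hx => k2 x (Finset.mem_union_right _ hx)] at k3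
        exact k3 n1
      · refine key κ k1 (fun x hx => ?_) B
          (List.mem_cons_of_mem _ (List.mem_cons_of_mem _ hB')) k3
        rw [k2 x (Finset.mem_union_left _ (Finset.mem_union_left _ hx)), hκC x hx]
  rw [propext hiff]

omit hM hd in
lemma valid_modValue [NeZero m] (k : ℕ) (c : Fin k → ZMod m) (f : Fin k → Fm m (Atom L n))
    (h : NiceLine Q r (List.ofFn fun a : Fin m => .mod k c f (a : ℕ))) :
    Valid Q M (List.ofFn fun a : Fin m => .mod k c f (a : ℕ)) := by
  refine valid_of_val fun ι hι => ?_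
  have h0 : (.mod k c f ((0 : Fin m) : ℕ) : Fm m (Atom L n)) ∈
      (List.ofFn fun a : Fin m => .mod k c f (a : ℕ)) := List.mem_ofFn.2 ⟨0, rfl⟩
  have hA := h.mem h0
  have hf : ∀ i, Nice Q r (f i) := fun i => h _ (sub_disj h0 (.mod i (.refl _)))
  obtain ⟨b, hb⟩ := exists_value (by omega) hA hf ι
  refine ⟨_, List.mem_ofFn.2 ⟨⟨b.val, ZMod.val_lt b⟩, rfl⟩, ?_⟩
  rw [ZMod.natCast_zmod_val]
  exact hb

omit hM hn hd in
lemma valid_modUnique (k : ℕ) (c : Fin k → ZMod m) (f : Fin k → Fm m (Atom L n)) {a b : ZMod m}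
    (hab : a ≠ b) : Valid Q M [.neg (.mod k c f a), .neg (.mod k c f b)] := by
  refine valid_of_val fun ι hι => ?_
  by_cases h1 : val Q (.mod k c f a) ι
  swap
  · exact ⟨_, List.mem_cons_self, h1⟩
  by_cases h2 : val Q (.mod k c f b) ι
  swap
  · exact ⟨_, List.mem_cons_of_mem _ List.mem_cons_self, h2⟩
  exact absurd (value_unique h1 h2) hab

end

end Pool.Agent.Lib.MP_e81270_lc_Mod
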