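import Pool.Agent.Lib.MP_e81270_lc_Mod.Sound
import Pool.Agent.Lib.MP_8fffab_lc_Sym.Rate

/-!
# The values of the translations and the lower bound
-/

set_option autoImplicit false
set_option linter.unusedSectionVars false

namespace Pool.Agent.Lib.MP_e81270_lc_Mod

open FirstOrder Equiv Equiv.Perm

section
variable {L : FirstOrder.Language.{0, 0}} [L.IsRelational] {m n : ℕ} {Q : Finset (Fin n)}

/-- the largest number of free variables of a subformula -/
def wd : {k : ℕ} → L.BoundedFormula Empty k → ℕ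
  | k, .falsum => k
  | k, .equal _ _ => k
  | k, .rel _ _ => k
  | _, .imp φ ψ => max (wd φ) (wd ψ)
  | _, .all φ => wd φ

lemma le_wd {k : ℕ} (φ : L.BoundedFormula Empty k) : k ≤ wd φ := by
  induction φ with
  | falsum => exact le_refl _
  | equal _ _ => exact le_refl _
  | rel _ _ => exact le_refl _
  | imp φ ψ h1 _ => exact h1.trans (le_max_left _ _)
  | all φ h => exact (Nat.le_succ _).trans h

lemma elim_comp {β : Type} {k : ℕ} (g : Fin n → β) (a : Fin k → Fin n) (x : Empty ⊕ Fin k) :
    Sum.elim Empty.elim (g ∘ a) x = g (Sum.elim Empty.elim a x) := by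
  rcases x with x | x
  · exact x.elim
  · rfl

lemma snoc_comp {β : Type} {k : ℕ} (g : Fin n → β) (a : Fin k → Fin n) (u : Fin n) :
    g ∘ (Fin.snoc a u : Fin (k + 1) → Fin n) = Fin.snoc (g ∘ a) (g u) := by
  funext i
  refine Fin.lastCases ?_ (fun j => ?_) i
  · simp
  · simp

lemma permute_trans {k : ℕ} (φ : L.BoundedFormula Empty k) (a : Fin k → Fin n)
    (π : Perm (Fin n)) : Same (permute π (trans m φ a)) (trans m φ (π ∘ a)) := by
  induction φ with
  | falsum => exact ⟨fun i => i.elim0, fun i => i.elim0⟩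
  | equal s t =>
    rw [trans, trans, elim_comp, elim_comp]
    by_cases h : Sum.elim Empty.elim a (varOf s) = Sum.elim Empty.elim a (varOf t)
    · rw [if_pos h, if_pos (congrArg π h)]
      exact ⟨fun i => i.elim0, fun i => i.elim0⟩
    · rw [if_neg h, if_neg (fun h' => h (π.injective h'))]
      exact ⟨fun i => i.elim0, fun i => i.elim0⟩
  | rel R ts =>
    rw [trans, trans]
    have : (fun i => Sum.elim Empty.elim (π ∘ a) (varOf (ts i))) =
        fun i => π (Sum.elim Empty.elim a (varOf (ts i))) := funext fun i => elim_comp _ _ _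
    rw [this]
    exact Same.refl _
  | imp φ ψ h1 h2 =>
    rw [trans, trans]
    have h : ∀ i : Fin 2, Same ((fun i => permute π (![Fm.neg (trans m φ a), trans m ψ a] i)) i)
        (![Fm.neg (trans m φ (π ∘ a)), trans m ψ (π ∘ a)] i) := by
      intro i
      fin_cases i
      · exact h1 a
      · exact h2 a
    exact ⟨fun i => ⟨i, h i⟩, fun i => ⟨i, h i⟩⟩
  | all φ h =>
    rw [trans, trans]
    refine ⟨fun u => ⟨π u, ?_⟩, fun u => ⟨π.symm u, ?_⟩⟩
    · have := h (Fin.snoc a u)
      rw [snoc_comp] at this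
      exact this
    · have := h (Fin.snoc a (π.symm u))
      rw [snoc_comp, Equiv.apply_symm_apply] at this
      exact this

lemma card_compl_union_inter {k : ℕ} (a : Fin k → Fin n) :
    ((Qᶜ ∪ Finset.univ.image a) ∩ Q).card ≤ k := by
  have hc : (Finset.univ.image a).card ≤ k :=
    Finset.card_image_le.trans (by rw [Finset.card_univ, Fintype.card_fin])
  refine le_trans (Finset.card_le_card ?_) hc
  intro x hx
  rw [Finset.mem_inter, Finset.mem_union, Finset.mem_compl] at hx
  exact hx.1.resolve_left (not_not.2 hx.2)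

lemma supp_trans {k : ℕ} (φ : L.BoundedFormula Empty k) (a : Fin k → Fin n)
    (hk : 2 * k + 3 ≤ Q.card) : supp Q (trans m φ a) ⊆ Qᶜ ∪ Finset.univ.image a := by
  have hc := card_compl_union_inter (Q := Q) a
  apply supp_subset Finset.subset_union_left (by omega)
  intro π _ hπ
  have : π ∘ a = a := funext fun i =>
    hπ _ (Finset.mem_union_right _ (Finset.mem_image_of_mem a (Finset.mem_univ i)))
  have h := permute_trans (m := m) φ a π
  rwa [this] at h

variable {M : Type} [L.Structure M]

lemma realize_varOf {β : Type} (t : L.Term β) (v : β → M) : t.realize v = v (varOf t) := by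
  cases t with
  | var x => rfl
  | func f _ => exact isEmptyElim f

lemma elim_default {k : ℕ} (v : Empty → M) (ι : Fin n → M) (a : Fin k → Fin n)
    (x : Empty ⊕ Fin k) :
    Sum.elim v (ι ∘ a) x = ι (Sum.elim Empty.elim a x) := by
  rcases x with x | x
  · exact x.elim
  · rfl

variable [Fintype M] [DecidableEq M] {r : ℕ}

theorem val_trans (hM : n ≤ Fintype.card M) (hn : 4 * r + 2 ≤ Q.card) {k : ℕ} (φ : L.BoundedFormula Empty k)
    (a : Fin k → Fin n) (hnice : ∀ B, Sub B (trans m φ a) → Nice Q r B)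
    (hw : 2 * wd φ + 3 ≤ Q.card) (hw2 : wd φ + 2 * r ≤ Q.card) {ι : Fin n → M}
    (hι : Function.Injective ι) (v : Empty → M) :
    val Q (trans m φ a) ι ↔ φ.Realize v (ι ∘ a) := by
  induction φ generalizing ι with
  | falsum =>
    rw [trans, val]
    constructor
    · rintro ⟨_, _, _, i, _⟩
      exact i.elim0
    · intro h
      exact h.elim
  | equal s t =>
    have h1 : (Language.BoundedFormula.equal s t).Realize v (ι ∘ a) ↔
        Sum.elim Empty.elim a (varOf s) = Sum.elim Empty.elim a (varOf t) := by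
      show s.realize _ = t.realize _ ↔ _
      rw [realize_varOf, realize_varOf, elim_default, elim_default]
      exact hι.eq_iff
    rw [h1, trans]
    have h0 : ¬ val Q (Fm.or 0 Fin.elim0 : Fm m (Atom L n)) ι := by
      rw [val]
      rintro ⟨_, _, _, i, _⟩
      exact i.elim0
    by_cases h : Sum.elim Empty.elim a (varOf s) = Sum.elim Empty.elim a (varOf t)
    · rw [if_pos h, val]
      simp [h, h0]
    · rw [if_neg h]
      simp [h, h0]
  | rel R ts =>
    rw [trans, val]
    show _ ↔ Language.Structure.RelMap R _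
    have : (fun i => (ts i).realize (Sum.elim v (ι ∘ a))) =
        fun i => ι (Sum.elim Empty.elim a (varOf (ts i))) :=
      funext fun i => by rw [realize_varOf, elim_default]
    rw [this]
  | imp φ ψ h1 h2 =>
    rw [trans] at hnice ⊢
    rw [wd] at hw hw2
    have hφ := le_max_left (wd φ) (wd ψ)
    have hψ := le_max_right (wd φ) (wd ψ)
    have n1 : ∀ B, Sub B (trans m φ a) → Nice Q r B :=
      fun B hB => hnice B (.or (f := ![Fm.neg (trans m φ a), trans m ψ a]) 0 (.neg hB))
    have n2 : ∀ B, Sub B (trans m ψ a) → Nice Q r B :=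
      fun B hB => hnice B (.or (f := ![Fm.neg (trans m φ a), trans m ψ a]) 1 hB)
    have e1 : ∀ κ : Fin n → M, Function.Injective κ →
        (val Q (trans m φ a) κ ↔ φ.Realize v (κ ∘ a)) :=
      fun κ hκ => h1 a n1 (by omega) (by omega) hκ
    have e2 : ∀ κ : Fin n → M, Function.Injective κ →
        (val Q (trans m ψ a) κ ↔ ψ.Realize v (κ ∘ a)) :=
      fun κ hκ => h2 a n2 (by omega) (by omega) hκ
    show _ ↔ (φ.Realize v (ι ∘ a) → ψ.Realize v (ι ∘ a))
    rw [← e1 ι hι, ← e2 ι hι]
    have c1 := (n1 _ (.refl _)).1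
    have c2 := (n2 _ (.refl _)).1
    have c3 := union_inter_card_le (Q := Q) (supp Q (trans m φ a)) (supp Q (trans m ψ a))
    constructor
    · intro h hφ'
      obtain ⟨κ, k1, k2, i, k3⟩ := exchange hM (hnice _ (.refl _))
        (fun i => hnice _ (.or i (.refl _))) hι h (supp Q (trans m φ a) ∪ supp Q (trans m ψ a))
        (by omega) (by omega)
      have l1 : val Q (trans m φ a) κ ↔ val Q (trans m φ a) ι := val_loc (by omega) fun x hx =>
        k2 x (Finset.mem_union_right _ (Finset.mem_union_left _ hx))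
      have l2 : val Q (trans m ψ a) κ ↔ val Q (trans m ψ a) ι := val_loc (by omega) fun x hx =>
        k2 x (Finset.mem_union_right _ (Finset.mem_union_right _ hx))
      rw [← l2]
      have key : ∀ j : Fin 2, val Q (![Fm.neg (trans m φ a), trans m ψ a] j) κ →
          val Q (trans m ψ a) κ := by
        intro j hj
        fin_cases j
        · exact absurd (l1.2 hφ') hj
        · exact hj
      exact key i k3
    · intro h
      by_cases hφ' : val Q (trans m φ a) ι
      · exact ⟨ι, hι, fun _ _ => rfl, 1, h hφ'⟩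
      · exact ⟨ι, hι, fun _ _ => rfl, 0, hφ'⟩
  | @all k φ h =>
    rw [trans] at hnice ⊢
    rw [wd] at hw hw2
    have hkw := le_wd φ
    have n1 : ∀ u, ∀ B, Sub B (trans m φ (Fin.snoc a u)) → Nice Q r B :=
      fun u B hB => hnice B (.neg (.or (f := fun u => Fm.neg (trans m φ (Fin.snoc a u))) u
        (.neg hB)))
    have e1 : ∀ u, ∀ κ : Fin n → M, Function.Injective κ →
        (val Q (trans m φ (Fin.snoc a u)) κ ↔ φ.Realize v (Fin.snoc (κ ∘ a) (κ u))) := by
      intro u κ hκ
      rw [← snoc_comp]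
      exact h (Fin.snoc a u) (n1 u) hw hw2 hκ
    have hor : Nice Q r (Fm.or n fun u => Fm.neg (trans m φ (Fin.snoc a u))) :=
      hnice _ (.neg (.refl _))
    have hfu : ∀ u, Nice Q r (Fm.neg (trans m φ (Fin.snoc a u))) := fun u =>
      hnice _ (.neg (.or (f := fun u => Fm.neg (trans m φ (Fin.snoc a u))) u (.refl _)))
    have hsub : supp Q (Fm.or n fun u => Fm.neg (trans m φ (Fin.snoc a u))) ⊆
        Qᶜ ∪ Finset.univ.image a := by
      have := supp_trans (m := m) (Q := Q) (.all φ) a (by omega)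
      rw [trans, supp_neg] at this
      exact this
    have hc := card_compl_union_inter (Q := Q) a
    show _ ↔ ∀ m : M, φ.Realize v (Fin.snoc (ι ∘ a) m)
    rw [val]
    constructor
    · intro hno m
      by_contra hm
      apply hno
      obtain ⟨X, hX⟩ : ∃ X, X = Qᶜ ∪ Finset.univ.image a := ⟨_, rfl⟩
      rw [← hX] at hc hsub
      have haX : ∀ i, a i ∈ X := fun i => hX ▸
        Finset.mem_union_right _ (Finset.mem_image_of_mem a (Finset.mem_univ i))
      by_cases hmem : ∃ y ∈ X, ι y = m
      · obtain ⟨y, -, rfl⟩ := hmem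
        refine ⟨ι, hι, fun _ _ => rfl, y, ?_⟩
        show ¬ val Q _ _
        rw [e1 y ι hι]
        exact hm
      · obtain ⟨u, hu⟩ : ∃ u, u ∉ X := by
          by_contra hcon
          push Not at hcon
          have h5 : Q ⊆ X ∩ Q := fun z hz => Finset.mem_inter.2 ⟨hcon z, hz⟩
          have := Finset.card_le_card h5
          omega
        obtain ⟨κ, k1, k2⟩ := exists_inj hM (insert u X)
          (Function.update ι u m) (by
            intro x hx y hy hxy
            rw [Finset.mem_coe, Finset.mem_insert] at hx hy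
            rcases hx with hx | hx <;> rcases hy with hy | hy
            · rw [hx, hy]
            · exfalso
              have hyu : y ≠ u := fun h => hu (h ▸ hy)
              rw [hx, Function.update_self, Function.update_of_ne hyu] at hxy
              exact hmem ⟨y, hy, hxy.symm⟩
            · exfalso
              have hxu : x ≠ u := fun h => hu (h ▸ hx)
              rw [hy, Function.update_self, Function.update_of_ne hxu] at hxy
              exact hmem ⟨x, hx, hxy⟩
            · have hxu : x ≠ u := fun h => hu (h ▸ hx)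
              have hyu : y ≠ u := fun h => hu (h ▸ hy)
              rw [Function.update_of_ne hxu, Function.update_of_ne hyu] at hxy
              exact hι hxy)
        have hka : ∀ x ∈ X, κ x = ι x := by
          intro x hx
          have hxu : x ≠ u := fun h => hu (h ▸ hx)
          rw [k2 x (Finset.mem_insert_of_mem hx), Function.update_of_ne hxu]
        have hku : κ u = m := by
          rw [k2 u (Finset.mem_insert_self _ _), Function.update_self]
        refine ⟨κ, k1, fun x hx => hka x (hsub hx), u, ?_⟩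
        show ¬ val Q _ _
        rw [e1 u κ k1, hku]
        have : κ ∘ a = ι ∘ a := funext fun i => hka _ (haX i)
        rw [this]
        exact hm
    · intro hall hv
      obtain ⟨κ, k1, k2, u, k3⟩ := exchange hM hor hfu hι hv (Qᶜ ∪ Finset.univ.image a) (by omega)
        (by omega)
      have k3 : ¬ val Q (trans m φ (Fin.snoc a u)) κ := k3
      rw [e1 u κ k1] at k3
      have : κ ∘ a = ι ∘ a := funext fun i =>
        k2 _ (Finset.mem_union_right _ (Finset.mem_union_right _
          (Finset.mem_image_of_mem a (Finset.mem_univ i))))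
      rw [this] at k3
      exact k3 (hall _)

/-- the translation of a true sentence is valid -/
lemma valid_translation (hM' : n ≤ Fintype.card M) (hn : 4 * r + 2 ≤ Q.card)
    (Ψ : L.Sentence) (hM : M ⊨ Ψ)
    (hw : 2 * wd Ψ + 3 ≤ Q.card) (hw2 : wd Ψ + 2 * r ≤ Q.card)
    (hnice : NiceLine Q r [translation m Ψ n]) : Valid Q M [translation m Ψ n] := by
  intro ι hι
  rw [val_disj]
  refine ⟨ι, hι, fun _ _ => rfl, _, List.mem_singleton_self _, ?_⟩
  rw [translation, val_trans hM' hn (k := 0) Ψ Fin.elim0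
    (fun B hB => hnice B (sub_disj (List.mem_singleton_self _) hB)) hw hw2 hι default]
  have : ι ∘ (Fin.elim0 : Fin 0 → Fin n) = default := Subsingleton.elim _ _
  rw [this]
  exact hM

end


/-- superadditivity -/
lemma choose_mul_choose_le (a b i j : ℕ) :
    a.choose i * b.choose j ≤ (a + b).choose (i + j) := by
  rw [Nat.add_choose_eq]
  exact Finset.single_le_sum (f := fun ij : ℕ × ℕ => a.choose ij.1 * b.choose ij.2)
    (fun _ _ => Nat.zero_le _) (Finset.HasAntidiagonal.mem_antidiagonal.2 (rfl : (i, j).1 + (i, j).2 = i + j))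

lemma choose_pow_le (s : ℕ) : (100 : ℕ).choose 20 ^ s ≤ (100 * s).choose (20 * s) := by
  induction s with
  | zero => simp
  | succ s ih =>
    rw [pow_succ, Nat.mul_succ, Nat.mul_succ]
    exact (Nat.mul_le_mul_right _ ih).trans (choose_mul_choose_le _ _ _ _)

lemma choose_100_20 : 2 ^ 206 ≤ ((100 : ℕ).choose 20) ^ 3 := by
  rw [Nat.choose_eq_factorial_div_factorial (by norm_num)]
  norm_num [Nat.factorial]

open Pool.Agent.SymSC (exists_factorial) in
/-- numbers -/
lemma exists_numbers (w : ℕ) : ∃ n₀ : ℕ, ∀ n ≥ n₀, ∀ T : ℕ, T ^ 3 < 2 ^ (2 * n) →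
    ∃ b r : ℕ, T < b.factorial ∧ T * 2 ^ (2 * b) < n.choose r ∧ 5 * r + 2 ≤ n ∧
      4 * r ≤ n ∧ 2 * w + 3 ≤ n ∧ w + 2 * r ≤ n := by
  obtain ⟨c, hc⟩ : ∃ c : ℕ, c = 2 * w + 104 := ⟨_, rfl⟩
  obtain ⟨s₁, hs₁⟩ := exists_factorial 2 (2 ^ (200 + 2 * c)) (by norm_num)
  refine ⟨100 * (s₁ + 2 * c + 2) + c, fun n hn T hT => ?_⟩
  obtain ⟨s, hs⟩ : ∃ s : ℕ, s = (n - (2 * w + 3)) / 100 := ⟨_, rfl⟩
  have hsn : 100 * s + (2 * w + 3) ≤ n := by omega
  have hns : n ≤ 100 * s + c := by omega
  have hss : s₁ + 2 * c + 1 ≤ s := by omega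
  have hT2 : T ^ 3 < 2 ^ (200 * s + 2 * c) :=
    lt_of_lt_of_le hT (Nat.pow_le_pow_right (by norm_num) (by omega))
  refine ⟨s / 2, 20 * s, ?_, ?_, by omega, by omega, by omega, by omega⟩
  · refine lt_of_le_of_lt ?_ (hs₁ s (by omega))
    have e1 : 200 * s + 2 * c ≤ (200 + 2 * c) * s := by
      have e2 : 2 * c * 1 ≤ 2 * c * s := Nat.mul_le_mul_left _ (by omega)
      rw [Nat.add_mul]
      omega
    rw [← pow_mul]
    exact le_trans (Nat.le_self_pow (by norm_num) T)
      (le_trans hT2.le (Nat.pow_le_pow_right (by norm_num) e1))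
  · have h1 : (100 * s).choose (20 * s) ≤ n.choose (20 * s) :=
      Nat.choose_le_choose _ (by omega)
    refine lt_of_lt_of_le ?_ ((choose_pow_le s).trans h1)
    refine lt_of_pow_lt_pow_left₀ 3 (Nat.zero_le _) ?_
    calc (T * 2 ^ (2 * (s / 2))) ^ 3 = T ^ 3 * 2 ^ (6 * (s / 2)) := by
          rw [mul_pow, ← pow_mul]
          congr 2
          ring
      _ < 2 ^ (200 * s + 2 * c) * 2 ^ (6 * (s / 2)) :=
          Nat.mul_lt_mul_of_pos_right hT2 (by positivity)
      _ = 2 ^ (200 * s + 2 * c + 6 * (s / 2)) := (pow_add _ _ _).symm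
      _ ≤ 2 ^ (206 * s) := Nat.pow_le_pow_right (by norm_num) (by omega)
      _ = (2 ^ 206) ^ s := pow_mul _ _ _
      _ ≤ ((100 : ℕ).choose 20 ^ 3) ^ s := Nat.pow_le_pow_left choose_100_20 s
      _ = ((100 : ℕ).choose 20 ^ s) ^ 3 := by rw [← pow_mul, ← pow_mul, mul_comm]

/-- binomial coefficients modulo `m` -/
lemma dvd_of_pow_dvd {m : ℕ} (hm : 0 < m) (k : ℕ) : ∀ j x : ℕ, 0 < j → j < 2 ^ k →
    m ^ k ∣ j * x → m ∣ x := by
  induction k with
  | zero =>
    intro j x h1 h2
    omega
  | succ k ih =>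
    intro j x h1 h2 h3
    obtain ⟨g, hg⟩ : ∃ g, g = Nat.gcd m j := ⟨_, rfl⟩
    have hg0 : 0 < g := hg ▸ Nat.gcd_pos_of_pos_left _ hm
    by_cases hg1 : g = 1
    · have hcop : Nat.Coprime (m ^ (k + 1)) j :=
        Nat.Coprime.pow_left _ (Nat.coprime_iff_gcd_eq_one.2 (hg ▸ hg1))
      exact (dvd_pow_self m (Nat.succ_ne_zero k)).trans (hcop.dvd_of_dvd_mul_left h3)
    · obtain ⟨j', hj'⟩ : g ∣ j := hg ▸ Nat.gcd_dvd_right m j
      obtain ⟨m', hm'⟩ : g ∣ m := hg ▸ Nat.gcd_dvd_left m j
      have h4 : g * (m ^ k * m') ∣ g * (j' * x) := by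
        have e1 : g * (m ^ k * m') = m ^ (k + 1) := by
          rw [pow_succ]
          conv_rhs => rw [hm']
          conv_lhs => rw [hm']
          ring
        have e2 : g * (j' * x) = j * x := by rw [hj']; ring
        rw [e1, e2]
        exact h3
      have h5 : m ^ k ∣ j' * x :=
        (Dvd.intro m' rfl).trans ((Nat.mul_dvd_mul_iff_left hg0).1 h4)
      refine ih j' x ?_ ?_ h5
      · rcases Nat.eq_zero_or_pos j' with h | h
        · rw [h, mul_zero] at hj'
          omega
        · exact h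
      · have h6 : 2 * j' ≤ g * j' := Nat.mul_le_mul_right _ (by omega)
        rw [pow_succ] at h2
        omega

lemma choose_cast_eq_one {m : ℕ} (hm : 0 < m) {k d e : ℕ} (hd : m ^ k ∣ d) (he : e < 2 ^ k) :
    (((d + e).choose d : ℕ) : ZMod m) = 1 := by
  have h1 : ∀ j, 0 < j → j ≤ e → ((d.choose j : ℕ) : ZMod m) = 0 := by
    intro j hj hje
    rw [ZMod.natCast_eq_zero_iff]
    apply dvd_of_pow_dvd hm k j _ hj (by omega)
    rcases Nat.eq_zero_or_pos d with h | h
    · subst h
      rw [Nat.choose_eq_zero_of_lt hj, mul_zero]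
      exact dvd_zero _
    · obtain ⟨d', rfl⟩ : ∃ d', d = d' + 1 := ⟨d - 1, by omega⟩
      obtain ⟨j', rfl⟩ : ∃ j', j = j' + 1 := ⟨j - 1, by omega⟩
      have h2 := Nat.add_one_mul_choose_eq d' j'
      rw [mul_comm (j' + 1), ← h2]
      exact Dvd.dvd.mul_right hd _
  have h2 : (d + e).choose d = (d + e).choose e := by
    rw [Nat.choose_symm_add]
  rw [h2, Nat.add_choose_eq, Nat.cast_sum, Finset.sum_eq_single (0, e)]
  · simp
  · rintro ⟨i, j⟩ hij hne
    rw [Finset.HasAntidiagonal.mem_antidiagonal] at hij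
    simp only at hij
    have hi : 0 < i := by
      rcases Nat.eq_zero_or_pos i with h | h
      · exfalso
        subst h
        rw [zero_add] at hij
        subst hij
        exact hne rfl
      · exact h
    simp only [Nat.cast_mul]
    rw [h1 i hi (by omega), zero_mul]
  · intro h
    exact absurd (Finset.HasAntidiagonal.mem_antidiagonal.2 (by simp)) h

/-- **Lower bound.** -/
theorem lower (w : ℕ) :
    ∃ q₀ : ℕ, ∀ (L : FirstOrder.Language.{0, 0}) [L.IsRelational] (Ψ : L.Sentence),
      wd Ψ ≤ w → ∀ (m n k : ℕ) (Q : Finset (Fin n)), 0 < m →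
      2 * m ≤ Q.card → q₀ ≤ Q.card → Q.card ≤ 2 ^ k →
      (∃ (M : Type) (_ : L.Structure M), Finite M ∧ M ⊨ Ψ ∧ n ≤ Nat.card M ∧
        m ^ k ∣ Nat.card M - n) →
      ∀ (e T : ℕ) (D : Fin e → Fm m (Atom L n ⊕ Fin e)) (E : Fin e → Fm m (Atom L n))
      (P : List (List (Fm m (Atom L n ⊕ Fin e)))),
      IsRefutation (translation m Ψ n) D P → (∀ i, E i = subst E (D i)) →
      Symmetric Q T E P → 2 ^ (2 * Q.card) ≤ T ^ 3 := by
  classical
  obtain ⟨n₀, hn₀⟩ := exists_numbers w
  refine ⟨n₀, fun L _ Ψ hw m n k Q hm hmQ hn hQk hMo e T D E P hP hE hS => ?_⟩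
  obtain ⟨M, _, hfin, hM, hMn, hMm⟩ := hMo
  have : Fintype M := Fintype.ofFinite M
  have : NeZero m := ⟨hm.ne'⟩
  rw [Nat.card_eq_fintype_card] at hMn hMm
  by_contra hcon
  push Not at hcon
  obtain ⟨b, r, h1, h2, h3, h4, h5, h6⟩ := hn₀ Q.card hn T hcon
  refine not_refutation (M := M) (Q := Q) (r := r) (d := Fintype.card M - n) (by omega) h3
    (fun e' he' => choose_cast_eq_one hm hMm (by omega)) hmQ hP hE ?_ ?_
  · intro Γ hΓ B hB
    exact nice_of_few (hS Γ hΓ B hB) h1 h2 (by omega)
  · intro hnice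
    exact valid_translation hMn (by omega) Ψ hM (by omega) (by omega) hnice

end Pool.Agent.Lib.MP_e81270_lc_Mod
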