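import Pool.Agent.Lib.MP_e81270_lc_Mod.Principles
import Pool.Agent.Lib.MP_e81270_lc_Mod.Lower

/-!
# Finite models of the pigeonhole principle and of the counting principles
-/

set_option autoImplicit false

namespace Pool.Agent.Lib.MP_e81270_lc_Mod

open FirstOrder FirstOrder.Language FirstOrder.Language.BoundedFormula

/-- a structure with `K` holes: the pigeon `p` sits in the hole `p` -/
@[instance_reducible] def pigeonStructure (N K : ℕ) : (pigeonLanguage N).Structure (Fin K) where
  funMap := fun f _ => isEmptyElim f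
  RelMap := fun {_} R => match R with
    | .sits p => fun x => ((x 0 : Fin K) : ℕ) = (p : ℕ)

lemma realize_conj {L : FirstOrder.Language.{0, 0}} {α M : Type} [L.Structure M] {k : ℕ}
    (l : List (L.BoundedFormula α k)) (v : α → M) (xs : Fin k → M) :
    (conj l).Realize v xs ↔ ∀ φ ∈ l, BoundedFormula.Realize φ v xs :=
  realize_foldr_inf l v xs

lemma mem_pairs {k : ℕ} (x : Fin k × Fin k) : x ∈ pairs k ↔ x.1 ≠ x.2 := by
  rcases x with ⟨a, b⟩
  simp [pairs]

lemma pigeonhole_model {N K : ℕ} (h : N ≤ K) :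
    ∃ _ : (pigeonLanguage N).Structure (Fin K), Fin K ⊨ pigeonhole N := by
  let _ := pigeonStructure N K
  refine ⟨pigeonStructure N K, ?_⟩
  have hs : ∀ {k : ℕ} (p : Fin N) (x : Fin k) (v : Empty → Fin K) (xs : Fin k → Fin K),
      (sitsIn p x).Realize v xs ↔ ((xs x : Fin K) : ℕ) = p := by
    intro k p x v xs
    rw [sitsIn, realize_rel₁]
    exact Iff.rfl
  rw [pigeonhole, Sentence.Realize, Formula.Realize, realize_inf, realize_inf, realize_conj,
    realize_conj, realize_conj]
  refine ⟨⟨?_, ?_⟩, ?_⟩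
  · intro φ hφ
    obtain ⟨p, -, rfl⟩ := List.mem_map.1 hφ
    rw [realize_ex]
    refine ⟨⟨p, lt_of_lt_of_le p.2 h⟩, ?_⟩
    rw [hs]
    rfl
  · intro φ hφ
    obtain ⟨x, hx, rfl⟩ := List.mem_map.1 hφ
    rw [mem_pairs] at hx
    rw [realize_all]
    intro a
    rw [realize_not, realize_inf, hs, hs]
    rintro ⟨h1, h2⟩
    exact hx (Fin.ext (h1.symm.trans h2))
  · intro φ hφ
    obtain ⟨p, -, rfl⟩ := List.mem_map.1 hφ
    rw [realize_all]
    intro a
    rw [realize_all]
    intro b
    rw [realize_imp, realize_imp, hs, hs, realize_bdEqual]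
    intro h1 h2
    apply Fin.ext
    exact h1.trans h2.symm

section
variable {L : FirstOrder.Language.{0, 0}} [L.IsRelational] {k w : ℕ}

lemma wd_inf {φ ψ : L.BoundedFormula Empty k} (h1 : wd φ ≤ w) (h2 : wd ψ ≤ w) :
    wd (φ ⊓ ψ) ≤ w := by
  have hk := (le_wd φ).trans h1
  show max (max (wd φ) (max (wd ψ) k)) k ≤ w
  simp only [max_le_iff]
  tauto

lemma wd_not {φ : L.BoundedFormula Empty k} (h1 : wd φ ≤ w) : wd (∼φ) ≤ w := by
  have hk := (le_wd φ).trans h1
  show max (wd φ) k ≤ w
  simp only [max_le_iff]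
  tauto

lemma wd_conj (hk : k ≤ w) (l : List (L.BoundedFormula Empty k)) (h : ∀ φ ∈ l, wd φ ≤ w) :
    wd (conj l) ≤ w := by
  induction l with
  | nil =>
    show max k k ≤ w
    simpa using hk
  | cons φ l ih =>
    show wd (φ ⊓ conj l) ≤ w
    exact wd_inf (h φ List.mem_cons_self) (ih fun ψ hψ => h ψ (List.mem_cons_of_mem _ hψ))

end

lemma wd_pigeonhole (N : ℕ) : wd (pigeonhole N) ≤ 2 := by
  have hs : ∀ {k : ℕ} (p : Fin N) (x : Fin k), wd (sitsIn p x) = k := fun _ _ => rfl
  refine wd_inf (wd_inf (wd_conj (by norm_num) _ ?_) (wd_conj (by norm_num) _ ?_))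
    (wd_conj (by norm_num) _ ?_)
  · intro φ hφ
    obtain ⟨p, -, rfl⟩ := List.mem_map.1 hφ
    show max (max (wd (sitsIn p (0 : Fin 1))) 1) 0 ≤ 2
    rw [hs]
    norm_num
  · intro φ hφ
    obtain ⟨x, -, rfl⟩ := List.mem_map.1 hφ
    show wd (∼(sitsIn x.1 (0 : Fin 1) ⊓ sitsIn x.2 0)) ≤ 2
    exact wd_not (wd_inf (by rw [hs]; norm_num) (by rw [hs]; norm_num))
  · intro φ hφ
    obtain ⟨p, -, rfl⟩ := List.mem_map.1 hφ
    show max (wd (sitsIn p (0 : Fin 2))) (max (wd (sitsIn p (1 : Fin 2))) 2) ≤ 2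
    rw [hs, hs]
    norm_num

/-- an equivalence relation with classes of `r` elements -/
@[instance_reducible] def classStructure (r K : ℕ) :
    Language.graph.Structure (Fin K × Fin r) where
  funMap := fun f _ => isEmptyElim f
  RelMap := fun {_} R => match R with
    | .adj => fun x => (x 0).1 = (x 1).1

lemma counting_model (r K : ℕ) :
    ∃ _ : Language.graph.Structure (Fin K × Fin r), (Fin K × Fin r) ⊨ counting r := by
  let _ := classStructure r K
  refine ⟨classStructure r K, ?_⟩
  have ha : ∀ x y : Fin K × Fin r,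
      Structure.RelMap (L := Language.graph) adj ![x, y] ↔ x.1 = y.1 := fun _ _ => Iff.rfl
  rw [counting, Sentence.Realize, Formula.Realize, realize_inf, realize_inf, realize_inf,
    realize_iAlls]
  refine ⟨⟨⟨?_, ?_⟩, ?_⟩, ?_⟩
  · have h1 : (Fin K × Fin r) ⊨ (adj.reflexive : Language.graph.Sentence) :=
      Relations.realize_reflexive.2 ⟨fun x => (ha x x).2 rfl⟩
    exact h1
  · have h1 : (Fin K × Fin r) ⊨ (adj.symmetric : Language.graph.Sentence) :=
      Relations.realize_symmetric.2 ⟨fun x y hxy => (ha y x).2 ((ha x y).1 hxy).symm⟩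
    exact h1
  · have h1 : (Fin K × Fin r) ⊨ (adj.transitive : Language.graph.Sentence) :=
      Relations.realize_transitive.2
        ⟨fun x y z hxy hyz => (ha x z).2 (((ha x y).1 hxy).trans ((ha y z).1 hyz))⟩
    exact h1
  · intro i
    rw [realize_exs]
    refine ⟨fun j => ((i 0).1, j), ?_⟩
    rw [exactly, realize_inf, realize_inf, realize_conj, realize_conj]
    refine ⟨⟨?_, ?_⟩, ?_⟩
    · intro φ hφ
      obtain ⟨x, hx, rfl⟩ := List.mem_map.1 hφ
      rw [mem_pairs] at hx
      rw [realize_not, realize_bdEqual]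
      intro he
      exact hx (Prod.ext_iff.1 he).2
    · intro φ hφ
      obtain ⟨x, hx, rfl⟩ := List.mem_map.1 hφ
      rw [realize_rel₂]
      exact (ha _ _).2 rfl
    · rw [realize_all]
      intro z
      rw [realize_imp, realize_rel₂, realize_foldr_sup]
      intro hz
      have hz' : (i 0).1 = z.1 := by
        have := (ha _ _).1 hz
        simpa using this
      refine ⟨_, List.mem_map.2 ⟨z.2, List.mem_finRange _, rfl⟩, ?_⟩
      rw [realize_bdEqual]
      simp only [Function.comp_apply, Term.realize_var, Sum.elim_inr, Fin.snoc_last,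
        Fin.snoc_castSucc]
      exact Prod.ext hz'.symm rfl

end Pool.Agent.Lib.MP_e81270_lc_Mod
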