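import Mathlib

/-!
# The pigeonhole principle and the counting principles as first-order sentences
-/

set_option autoImplicit false

namespace Pool.Agent.Lib.MP_e81270_lc_Mod

open FirstOrder FirstOrder.Language FirstOrder.Language.BoundedFormula

/-- The relation symbols for the pigeonhole principle: a unary relation for each pigeon. -/
inductive PigeonRel (N : ℕ) : ℕ → Type
  | sits (p : Fin N) : PigeonRel N 1

/-- The language of the pigeonhole principle with `N` pigeons. The elements of a structure are the
holes; the propositional variable `⟨1, sits p, ![j]⟩` says that the pigeon `p` sits in the hole `j`. -/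
def pigeonLanguage (N : ℕ) : FirstOrder.Language.{0, 0} := ⟨fun _ => Empty, PigeonRel N⟩

instance (N : ℕ) : (pigeonLanguage N).IsRelational := fun _ => inferInstanceAs (IsEmpty Empty)

/-- The relation symbol of the pigeon `p`. -/
def pigeon {N : ℕ} (p : Fin N) : (pigeonLanguage N).Relations 1 := PigeonRel.sits p

/-- The formula: the pigeon `p` sits in the hole `x`. -/
def sitsIn {N k : ℕ} (p : Fin N) (x : Fin k) : (pigeonLanguage N).BoundedFormula Empty k :=
  (pigeon p).boundedFormula₁ (&x)

/-- The conjunction of a list of formulas. -/
def conj {L : FirstOrder.Language.{0, 0}} {α : Type} {k : ℕ} (l : List (L.BoundedFormula α k)) :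
    L.BoundedFormula α k := l.foldr (· ⊓ ·) ⊤

/-- The pairs of different numbers below `k`. -/
def pairs (k : ℕ) : List (Fin k × Fin k) :=
  (List.finRange k ×ˢ List.finRange k).filter fun x => x.1 ≠ x.2

/-- The pigeonhole principle: every pigeon sits in a hole, different pigeons do not sit in the same
hole, and no pigeon sits in two holes. It has a model with `n` elements if and only if
`N ≤ n`. -/
def pigeonhole (N : ℕ) : (pigeonLanguage N).Sentence :=
  conj ((List.finRange N).map fun p => ∃' sitsIn p 0) ⊓
  conj ((pairs N).map fun x => ∀' ∼(sitsIn x.1 0 ⊓ sitsIn x.2 0)) ⊓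
  conj ((List.finRange N).map fun p => ∀' ∀' (sitsIn p 0 ⟹ sitsIn p 1 ⟹ (&0).bdEqual (&1)))

/-- There are different elements `y 0, ..., y (r - 1)` adjacent to `x`, and every element adjacent
to `x` is one of them. -/
def exactly (r : ℕ) : Language.graph.BoundedFormula (Empty ⊕ Fin 1) r :=
  conj ((pairs r).map fun ij => ∼((&ij.1).bdEqual (&ij.2))) ⊓
  conj ((List.finRange r).map fun i => adj.boundedFormula₂ (Term.var (.inl (.inr 0))) (&i)) ⊓
  ∀' (adj.boundedFormula₂ (Term.var (.inl (.inr 0))) (&(Fin.last r)) ⟹
    ((List.finRange r).map fun i => (&(Fin.last r)).bdEqual (&i.castSucc)).foldr (· ⊔ ·) ⊥)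

/-- The counting principle modulo `r`: the relation is an equivalence relation, and all classes
have exactly `r` elements. It has a model with `n > 0` elements if and only if `r` divides
`n`. -/
noncomputable def counting (r : ℕ) : Language.graph.Sentence :=
  adj.reflexive ⊓ adj.symmetric ⊓ adj.transitive ⊓ (exactly r).exs.iAlls (Fin 1)

end Pool.Agent.Lib.MP_e81270_lc_Mod
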