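import Pool.Agent.Lib.MP_e81270_lc_Mod.GateSum

/-!
# The axiom for the range of a sum of few formulas
-/

set_option autoImplicit false
set_option linter.unusedSectionVars false

namespace Pool.Agent.Lib.MP_e81270_lc_Mod

open FirstOrder Equiv Equiv.Perm
open Pool.Agent.SymCirc (c3 c3_apply_a c3_apply_of_ne)

section
variable {L : FirstOrder.Language.{0, 0}} {m n : ℕ} {Q : Finset (Fin n)} {M : Type}
  [L.Structure M] [Fintype M] [DecidableEq M] {r d : ℕ}

/-- the inputs of a counting gate of small arity have their supports in the support of the gate -/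
lemma supp_subset_of_few (hn : 5 * r + 2 ≤ Q.card) {k : ℕ} (hk : 2 * k ≤ Q.card)
    {c : Fin k → ZMod m} {f : Fin k → Fm m (Atom L n)} {a : ZMod m}
    (hA : Nice Q r (.mod k c f a)) (hf : ∀ i, Nice Q r (f i)) (i : Fin k) :
    supp Q (f i) ⊆ supp Q (.mod k c f a) := by
  intro x hx
  by_contra hxS
  obtain ⟨S, hS⟩ : ∃ S, S = supp Q (.mod k c f a) := ⟨_, rfl⟩
  rw [← hS] at hxS
  have c1 := hA.1
  have c2 := (hf i).1
  rw [← hS] at c1
  obtain ⟨Y, hY⟩ : ∃ Y, Y = Q \ (S ∪ supp Q (f i)) := ⟨_, rfl⟩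
  have c3' : Q.card < Y.card + 2 * r := by
    have h1 := Finset.card_sdiff_add_card_inter Q (S ∪ supp Q (f i))
    rw [← hY, Finset.inter_comm] at h1
    have h2 := union_inter_card_le (Q := Q) S (supp Q (f i))
    omega
  have hYS : ∀ y ∈ Y, y ∉ S ∧ y ∉ supp Q (f i) := by
    intro y hy
    rw [hY, Finset.mem_sdiff, Finset.mem_union] at hy
    tauto
  -- the image of the input under a cycle which moves `x` to `y`
  have key : ∀ y ∈ Y, ∃ j : Fin k, y ∈ supp Q (f j) ∧ ∀ y' ∈ Y, y' ∈ supp Q (f j) → y' = y := by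
    intro y hy
    obtain ⟨z, hz, hzy⟩ : ∃ z ∈ Y, z ≠ y := by
      have h1 : (Y.erase y).Nonempty := by
        rw [← Finset.card_pos, Finset.card_erase_of_mem hy]
        omega
      obtain ⟨z, hz⟩ := h1
      exact ⟨z, Finset.mem_of_mem_erase hz, Finset.ne_of_mem_erase hz⟩
    have hxy : x ≠ y := fun h => (hYS y hy).2 (h ▸ hx)
    have hxz : x ≠ z := fun h => (hYS z hz).2 (h ▸ hx)
    have hfix : ∀ s ∈ S, c3 x y z s = s := by
      intro s hs
      apply c3_apply_of_ne
      · exact fun h => hxS (h ▸ hs)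
      · exact fun h => (hYS y hy).1 (h ▸ hs)
      · exact fun h => (hYS z hz).1 (h ▸ hs)
    have hfixQ : ∀ s ∉ Q, c3 x y z s = s := fun s hs =>
      hfix s (hS ▸ compl_subset_supp Q _ (Finset.mem_compl.2 hs))
    obtain ⟨_, σ, h2⟩ : Same (permute (c3 x y z) (.mod k c f a)) (.mod k c f a) :=
      hA.2 _ (sign_c3 hxy hzy.symm) (hS ▸ hfix)
    have h3 : supp Q (f (σ i)) = (supp Q (f i)).map (c3 x y z).toEmbedding := by
      rw [← supp_permute (f i) hfixQ]
      exact (supp_same Q (h2 i).2).symm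
    refine ⟨σ i, ?_, ?_⟩
    · rw [h3]
      have := Finset.mem_map_of_mem (c3 x y z).toEmbedding hx
      rwa [Equiv.coe_toEmbedding, c3_apply_a hxy hxz] at this
    · intro y' hy' hmem
      rw [h3, Finset.mem_map] at hmem
      obtain ⟨s, hs, hsy⟩ := hmem
      rw [Equiv.coe_toEmbedding] at hsy
      by_cases hsx : s = x
      · rw [hsx, c3_apply_a hxy hxz] at hsy
        exact hsy.symm
      · exfalso
        have h4 : s ≠ y := fun h => (hYS y hy).2 (h ▸ hs)
        have h5 : s ≠ z := fun h => (hYS z hz).2 (h ▸ hs)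
        rw [c3_apply_of_ne hsx h4 h5] at hsy
        exact (hYS y' hy').2 (hsy ▸ hs)
  have : Nonempty (Fin k) := ⟨i⟩
  choose! g hg1 hg2 using key
  have h1 : Y.card ≤ (Finset.univ : Finset (Fin k)).card :=
    Finset.card_le_card_of_injOn g (fun _ _ => Finset.mem_univ _)
      (fun y hy y' hy' he => (hg2 y hy y' hy' (by rw [he]; exact hg1 y' hy')).symm)
  rw [Finset.card_univ, Fintype.card_fin] at h1
  omega

lemma valid_modRange (hM : Fintype.card M = n + d) (hn : 5 * r + 2 ≤ Q.card)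
    (hd : ∀ e' ≤ 2 * r, (((d + e').choose d : ℕ) : ZMod m) = 1) (hm : 2 * m ≤ Q.card)
    (k : ℕ) (f : Fin k → Fm m (Atom L n)) (hk : k < m)
    (h : NiceLine Q r (List.ofFn fun a : Fin (k + 1) => .mod k (fun _ => 1) f (a : ℕ))) :
    Valid Q M (List.ofFn fun a : Fin (k + 1) => .mod k (fun _ => 1) f (a : ℕ)) := by
  classical
  refine valid_of_val fun ι hι => ?_
  have h0 : ∀ a : Fin (k + 1), (.mod k (fun _ => 1) f (a : ℕ) : Fm m (Atom L n)) ∈
      (List.ofFn fun a : Fin (k + 1) => .mod k (fun _ => 1) f (a : ℕ)) :=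
    fun a => List.mem_ofFn.2 ⟨a, rfl⟩
  have hf : ∀ i, Nice Q r (f i) := fun i => h _ (sub_disj (h0 0) (.mod i (.refl _)))
  have hcard : (Finset.univ.filter fun i => val Q (f i) ι).card < k + 1 := by
    have := Finset.card_le_univ (Finset.univ.filter fun i => val Q (f i) ι)
    rw [Fintype.card_fin] at this
    omega
  obtain ⟨b, hb⟩ : ∃ b : Fin (k + 1), (b : ℕ) =
    (Finset.univ.filter fun i => val Q (f i) ι).card := ⟨⟨_, hcard⟩, rfl⟩
  have hA := h.mem (h0 b)
  have hs := hA.1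
  refine ⟨_, h0 b, ?_⟩
  obtain ⟨T, hT⟩ : ∃ T, T = supp Q (.mod k (fun _ => 1) f (b : ℕ) : Fm m (Atom L n)) :=
    ⟨_, rfl⟩
  rw [← hT] at hs
  obtain ⟨D⟩ := get_design (Q := Q) (r := r) hι hM (T := T) (by omega)
  rw [val_mod_iff (by omega) hA hf D hd (hT ▸ Finset.Subset.refl _) (by omega)]
  have h3 : ∑ X ∈ D.Y.powersetCard d, ∑ i, wt (val Q (f i) (D.κ X)) (1 : ZMod m) =
      ∑ _X ∈ D.Y.powersetCard d, ((b : ℕ) : ZMod m) := by
    refine Finset.sum_congr rfl fun X hX => ?_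
    rw [hb, Finset.card_filter, Nat.cast_sum]
    refine Finset.sum_congr rfl fun i _ => ?_
    have hi : val Q (f i) (D.κ X) ↔ val Q (f i) ι := val_loc (by omega) fun x hx =>
      (D.adm X hX).2 x (hT ▸ supp_subset_of_few hn (by omega) hA hf i hx)
    rw [propext hi]
    by_cases hv : val Q (f i) ι
    · rw [wt_true hv, if_pos hv, Nat.cast_one]
    · rw [wt_false hv, if_neg hv, Nat.cast_zero]
  rw [h3, sum_const_design D hd]

end

end Pool.Agent.Lib.MP_e81270_lc_Mod
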