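import Pool.Agent.Lib.MP_e81270_lc_Mod.Basic
import Pool.Agent.Lib.MP_e81270_lc_Mod.Fam

/-!
# The value of a formula with small supports in a larger finite structure
-/

set_option autoImplicit false
set_option linter.unusedSectionVars false

namespace Pool.Agent.Lib.MP_e81270_lc_Mod

open FirstOrder Equiv Equiv.Perm

open Classical in
/-- the weight `c` if `P` holds -/
noncomputable def wt {R : Type} [Zero R] (P : Prop) (c : R) : R := if P then c else 0

lemma wt_true {R : Type} [Zero R] {P : Prop} (h : P) (c : R) : wt P c = c := if_pos h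

lemma wt_false {R : Type} [Zero R] {P : Prop} (h : ¬ P) (c : R) : wt P c = 0 := if_neg h

section
variable {L : FirstOrder.Language.{0, 0}} {m n : ℕ} {Q : Finset (Fin n)} {M : Type}
  [L.Structure M] [Fintype M] [DecidableEq M]

lemma card_split (X : Finset (Fin n)) : X.card + Q.card ≤ (X ∩ Q).card + n := by
  have h1 := Finset.card_inter_add_card_sdiff X Q
  have h2 : (X \ Q).card ≤ (Qᶜ).card := by
    apply Finset.card_le_card
    intro x hx
    exact Finset.mem_compl.2 (Finset.mem_sdiff.1 hx).2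
  have h3 := Finset.card_add_card_compl Q
  rw [Fintype.card_fin] at h3
  omega

lemma union_inter_card_le (X Y : Finset (Fin n)) :
    ((X ∪ Y) ∩ Q).card ≤ (X ∩ Q).card + (Y ∩ Q).card := by
  rw [Finset.union_inter_distrib_right]
  exact Finset.card_union_le _ _

variable (Q) in
/-- the value of a formula at an injection of `{0, ..., n-1}` into `M` -/
def val : Fm m (Atom L n) → (Fin n → M) → Prop
  | .var x, ι => Language.Structure.RelMap x.2.1 fun i => ι (x.2.2 i)
  | .neg A, ι => ¬ val A ι
  | .or k f, ι => ∃ ι' : Fin n → M, Function.Injective ι' ∧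
      (∀ x ∈ supp Q (.or k f), ι' x = ι x) ∧ ∃ i, val (f i) ι'
  | .mod k c f a, ι => ∃ H : Finset M → ZMod m, IsDist (supp Q (.mod k c f a))
      (fun i => supp Q (f i)) (fun i κ => wt (val (f i) κ) (c i)) ι H ∧ ∑ V, H V = a

lemma val_loc (hn : 2 ≤ Q.card) {A : Fm m (Atom L n)} {ι ι' : Fin n → M}
    (h : ∀ x ∈ supp Q A, ι x = ι' x) : val Q A ι ↔ val Q A ι' := by
  induction A with
  | var x =>
    rw [val, val]
    have : (fun i => ι (x.2.2 i)) = fun i => ι' (x.2.2 i) :=
      funext fun i => h _ (mem_supp_var hn x i)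
    rw [this]
  | neg A ih =>
    rw [val, val, ih]
    rw [← supp_neg]
    exact h
  | or k f ih =>
    rw [val, val]
    constructor
    · rintro ⟨κ, h1, h2, h3⟩
      exact ⟨κ, h1, fun x hx => (h2 x hx).trans (h x hx), h3⟩
    · rintro ⟨κ, h1, h2, h3⟩
      exact ⟨κ, h1, fun x hx => (h2 x hx).trans (h x hx).symm, h3⟩
  | mod k c f a ih =>
    rw [val, val]
    constructor
    · rintro ⟨H, h1, h2⟩
      exact ⟨H, h1.congr_ι h, h2⟩
    · rintro ⟨H, h1, h2⟩
      exact ⟨H, h1.congr_ι fun x hx => (h x hx).symm, h2⟩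

lemma val_permute (A : Fm m (Atom L n)) {π : Perm (Fin n)} (hπ : ∀ x ∉ Q, π x = x)
    (ι : Fin n → M) : val Q (permute π A) ι ↔ val Q A (ι ∘ π) := by
  induction A generalizing ι with
  | var x => exact Iff.rfl
  | neg A ih =>
    show ¬ val Q (permute π A) ι ↔ ¬ val Q A (ι ∘ π)
    rw [ih]
  | or k f ih =>
    have hs := supp_permute (Fm.or k f) hπ
    show val Q (.or k fun i => permute π (f i)) ι ↔ _
    have hs' : supp Q (Fm.or k fun i => permute π (f i)) =
        (supp Q (Fm.or k f)).map π.toEmbedding := hs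
    rw [val, val, hs']
    constructor
    · rintro ⟨κ, h1, h2, i, h3⟩
      refine ⟨κ ∘ π, h1.comp π.injective, ?_, i, (ih i κ).1 h3⟩
      intro x hx
      exact h2 (π x) (Finset.mem_map_of_mem π.toEmbedding hx)
    · rintro ⟨κ, h1, h2, i, h3⟩
      refine ⟨κ ∘ π.symm, h1.comp π.symm.injective, ?_, i, ?_⟩
      · intro x hx
        rw [Finset.mem_map_equiv] at hx
        have := h2 _ hx
        rw [Function.comp_apply, this, Function.comp_apply, Equiv.apply_symm_apply]
      · rw [ih]
        have : (κ ∘ π.symm) ∘ π = κ := by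
          funext x
          simp
        rw [this]
        exact h3
  | mod k c f a ih =>
    have hs := supp_permute (Fm.mod k c f a) hπ
    show val Q (.mod k c (fun i => permute π (f i)) a) ι ↔ _
    have hs' : supp Q (Fm.mod k c (fun i => permute π (f i)) a) =
        (supp Q (Fm.mod k c f a)).map π.toEmbedding := hs
    have e1 : (fun i => supp Q (permute π (f i))) =
        fun i => (supp Q (f i)).map π.toEmbedding := funext fun i => supp_permute (f i) hπ
    have e2 : (fun (i : Fin k) (κ : Fin n → M) => wt (val Q (permute π (f i)) κ) (c i)) =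
        fun i κ => wt (val Q (f i) (κ ∘ π)) (c i) := by
      funext i κ
      rw [propext (ih i κ)]
    rw [val, val, hs', e1, e2]
    have e3 := fun H : Finset M → ZMod m =>
      IsDist.perm_iff (S := supp Q (Fm.mod k c f a)) (U := fun i => supp Q (f i))
        (φ := fun i κ => wt (val Q (f i) κ) (c i)) (ι := ι) (H := H) π
    exact exists_congr fun H => and_congr (e3 H) Iff.rfl

lemma val_same {A B : Fm m (Atom L n)} (h : Same A B) (ι : Fin n → M) :
    val Q A ι ↔ val Q B ι := by
  induction A generalizing B ι with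
  | var x =>
    cases B with
    | var y =>
      have : x = y := h
      rw [this]
    | neg B => simp [Same] at h
    | or l g => simp [Same] at h
    | mod l d g b => simp [Same] at h
  | neg A ih =>
    cases B with
    | var y => simp [Same] at h
    | or l g => simp [Same] at h
    | mod l d g b => simp [Same] at h
    | neg B =>
      rw [val, val, ih (B := B) h]
  | or k f ih =>
    cases B with
    | var y => simp [Same] at h
    | neg B => simp [Same] at h
    | mod l d g b => simp [Same] at h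
    | or l g =>
      rw [val, val, supp_same Q h]
      constructor
      · rintro ⟨κ, h1, h2, i, h3⟩
        obtain ⟨j, hj⟩ := h.1 i
        exact ⟨κ, h1, h2, j, (ih i hj κ).1 h3⟩
      · rintro ⟨κ, h1, h2, j, h3⟩
        obtain ⟨i, hi⟩ := h.2 j
        exact ⟨κ, h1, h2, i, (ih i hi κ).2 h3⟩
  | mod k c f a ih =>
    cases B with
    | var y => simp [Same] at h
    | neg B => simp [Same] at h
    | or l g => simp [Same] at h
    | mod l d g b =>
      rw [val, val, supp_same Q h]
      obtain ⟨h1, σ, h2⟩ := h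
      rw [h1]
      have key : ∀ i, supp Q (g (σ i)) = supp Q (f i) ∧ ∀ κ : Fin n → M,
          Function.Injective κ → wt (val Q (g (σ i)) κ) (d (σ i)) =
            wt (val Q (f i) κ) (c i) := by
        intro i
        refine ⟨(supp_same Q (h2 i).2).symm, fun κ _ => ?_⟩
        rw [(h2 i).1, propext (ih i (h2 i).2 κ)]
      constructor
      · rintro ⟨H, h3, h4⟩
        exact ⟨H, h3.congr σ key, h4⟩
      · rintro ⟨H, h3, h4⟩
        refine ⟨H, h3.congr σ.symm fun j => ?_, h4⟩
        obtain ⟨k1, k2⟩ := key (σ.symm j)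
        rw [Equiv.apply_symm_apply] at k1 k2
        exact ⟨k1.symm, fun κ hκ => (k2 κ hκ).symm⟩

/-- an injection on a set extends -/
lemma exists_inj (hM : n ≤ Fintype.card M) (X : Finset (Fin n)) (g : Fin n → M)
    (hg : Set.InjOn g X) : ∃ ι : Fin n → M, Function.Injective ι ∧ ∀ x ∈ X, ι x = g x := by
  obtain ⟨Z, h1, _, h2⟩ := Finset.exists_subsuperset_card_eq
    (Finset.subset_univ (X.image g)) (n := n)
    ((Finset.card_image_le).trans (by
      have := Finset.card_le_univ X
      rwa [Fintype.card_fin] at this)) (by rwa [Finset.card_univ])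
  obtain ⟨κ, h3, h4, _⟩ := exists_inj_range hg h2 h1
  exact ⟨κ, h3, h4⟩

/-- the witness of a true disjunction can be chosen to agree with `ι` on any small set -/
lemma exchange (hM : n ≤ Fintype.card M) {r k : ℕ} {f : Fin k → Fm m (Atom L n)}
    (hA : Nice Q r (.or k f))
    (hf : ∀ i, Nice Q r (f i)) {ι : Fin n → M} (hι : Function.Injective ι)
    (hv : val Q (.or k f) ι) (R : Finset (Fin n)) (h1 : 2 * r + 2 ≤ Q.card)
    (h2 : (R ∩ Q).card + 2 * r ≤ Q.card) :
    ∃ κ : Fin n → M, Function.Injective κ ∧ (∀ x ∈ supp Q (.or k f) ∪ R, κ x = ι x) ∧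
      ∃ i, val Q (f i) κ := by
  classical
  rw [val] at hv
  obtain ⟨ι', hι', hs, i, hi⟩ := hv
  have hr := hA.1
  have hri := (hf i).1
  have hc1 := union_inter_card_le (Q := Q) (supp Q (.or k f)) (supp Q (f i))
  have hc2 := union_inter_card_le (Q := Q) (supp Q (.or k f)) R
  have hc3 := card_split (Q := Q) (supp Q (.or k f) ∪ supp Q (f i))
  have hc4 := card_split (Q := Q) (supp Q (.or k f) ∪ R)
  have hc5 : (supp Q (f i) \ supp Q (.or k f)).card ≤ (supp Q (f i) ∩ Q).card := by
    apply Finset.card_le_card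
    intro x hx
    rw [Finset.mem_sdiff] at hx
    refine Finset.mem_inter.2 ⟨hx.1, ?_⟩
    by_contra hc
    exact hx.2 (compl_subset_supp Q _ (Finset.mem_compl.2 hc))
  obtain ⟨π, hπ1, hπ2, hπ3⟩ := Pool.Agent.Lib.MP_e81270_lc_Gap.exists_move hι hι'
    (S := supp Q (.or k f))
    (P := supp Q (.or k f) ∪ R) (B := supp Q (f i)) Finset.subset_union_left hs (by omega)
    (by omega)
  have hπQ : ∀ x ∉ Q, π x = x := fun x hx =>
    hπ2 x (compl_subset_supp Q _ (Finset.mem_compl.2 hx))
  have hinj : Set.InjOn (fun x => if x ∈ supp Q (.or k f) ∪ R then ι x else ι' (π.symm x))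
      ((supp Q (.or k f) ∪ R) ∪ (supp Q (f i)).map π.toEmbedding : Finset (Fin n)) := by
    have hcase : ∀ x ∈ (supp Q (.or k f) ∪ R) ∪ (supp Q (f i)).map π.toEmbedding,
        x ∈ supp Q (.or k f) ∪ R ∨ (x ∉ supp Q (.or k f) ∪ R ∧ π.symm x ∈ supp Q (f i)) := by
      intro x hx
      by_cases hxP : x ∈ supp Q (.or k f) ∪ R
      · exact Or.inl hxP
      · refine Or.inr ⟨hxP, ?_⟩
        rcases Finset.mem_union.1 hx with hx | hx
        · exact absurd hx hxP
        · exact Finset.mem_map_equiv.1 hx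
    intro x hx y hy hxy
    rcases hcase x hx with hx | ⟨hx, hxB⟩ <;> rcases hcase y hy with hy | ⟨hy, hyB⟩ <;>
      simp only [hx, hy, if_true, if_false] at hxy
    · exact hι hxy
    · have := (hπ3 _ hyB x hx).1 hxy.symm
      rw [Equiv.apply_symm_apply] at this
      exact this.symm
    · have := (hπ3 _ hxB y hy).1 hxy
      rw [Equiv.apply_symm_apply] at this
      exact this
    · exact π.symm.injective (hι' hxy)
  obtain ⟨κ, hκ, hκ2⟩ := exists_inj hM _ _ hinj
  refine ⟨κ, hκ, ?_, ?_⟩
  · intro x hx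
    rw [hκ2 x (Finset.mem_union_left _ hx)]
    simp only [hx, if_true]
  · have h3 : val Q (permute π (f i)) κ := by
      rw [val_permute _ hπQ, val_loc (by omega) (ι' := ι')]
      · exact hi
      · intro b hb
        rw [Function.comp_apply, hκ2 (π b) (Finset.mem_union_right _
          (Finset.mem_map_of_mem π.toEmbedding hb))]
        by_cases hp : π b ∈ supp Q (.or k f) ∪ R
        · simp only [hp, if_true]
          exact ((hπ3 b hb _ hp).2 rfl).symm
        · simp only [hp, if_false, Equiv.symm_apply_apply]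
    have h4 : Same (permute π (.or k f)) (.or k f) := hA.2 π hπ1 hπ2
    obtain ⟨j, hj⟩ := h4.1 i
    exact ⟨j, (val_same hj κ).1 h3⟩

/-- the support of a counting gate does not depend on the value -/
lemma supp_mod {k : ℕ} (c : Fin k → ZMod m) (f : Fin k → Fm m (Atom L n)) (a b : ZMod m) :
    supp Q (.mod k c f a) = supp Q (.mod k c f b) := by
  have : stab Q (.mod k c f a) = stab Q (.mod k c f b) := by
    ext π
    rw [mem_stab, mem_stab]
    constructor
    · intro h
      exact ⟨rfl, h.2⟩
    · intro h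
      exact ⟨rfl, h.2⟩
  rw [supp, supp, this]

lemma Nice.mod {r k : ℕ} {c : Fin k → ZMod m} {f : Fin k → Fm m (Atom L n)} {a : ZMod m}
    (h : Nice Q r (.mod k c f a)) (b : ZMod m) : Nice Q r (.mod k c f b) := by
  rw [Nice, supp_mod c f b a]
  exact ⟨h.1, fun π h1 h2 => ⟨rfl, (h.2 π h1 h2).2⟩⟩

lemma card_sdiff_compl {r : ℕ} {A : Fm m (Atom L n)} (h : Nice Q r A) :
    (supp Q A \ Qᶜ).card ≤ r := by
  have : supp Q A \ Qᶜ = supp Q A ∩ Q := by
    ext x
    simp
  rw [this]
  exact h.1.le

lemma card_supp_le {r : ℕ} {A : Fm m (Atom L n)} (h : Nice Q r A)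
    (hn : 3 * r + 2 ≤ Q.card) : (supp Q A).card + 2 * r + 2 ≤ n := by
  have h1 := card_split (Q := Q) (supp Q A)
  have h2 := h.1
  omega

/-- the family of the inputs of a counting gate -/
lemma symFam_mod (hn : 2 ≤ Q.card) {r k : ℕ} {c : Fin k → ZMod m}
    {f : Fin k → Fm m (Atom L n)} {a : ZMod m} (hA : Nice Q r (.mod k c f a))
    (hf : ∀ i, Nice Q r (f i)) :
    SymFam (M := M) Qᶜ (supp Q (.mod k c f a)) (fun i => supp Q (f i))
      (fun i κ => wt (val Q (f i) κ) (c i)) r where
  base := compl_subset_supp Q _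
  loc := fun i κ κ' h => by
    rw [propext (val_loc hn h)]
  perm := by
    intro π h1 h2
    have hπQ : ∀ x ∉ Q, π x = x := fun x hx =>
      h2 x (compl_subset_supp Q _ (Finset.mem_compl.2 hx))
    obtain ⟨_, σ, h3⟩ : Same (permute π (.mod k c f a)) (.mod k c f a) := hA.2 π h1 h2
    refine ⟨σ, fun i => ⟨?_, fun κ _ => ?_⟩⟩
    · rw [← supp_permute (f i) hπQ]
      exact (supp_same Q (h3 i).2).symm
    · rw [← (h3 i).1, ← propext (val_same (h3 i).2 κ)]
      rw [← propext (val_permute (f i) hπQ κ)]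
      rfl
  card := fun i => card_sdiff_compl (hf i)

/-- a counting gate has a value -/
lemma exists_value {r k : ℕ} {c : Fin k → ZMod m}
    {f : Fin k → Fm m (Atom L n)} {a : ZMod m} (hn : 3 * r + 2 ≤ Q.card)
    (hA : Nice Q r (.mod k c f a)) (hf : ∀ i, Nice Q r (f i)) (ι : Fin n → M) :
    ∃ b, val Q (.mod k c f b) ι := by
  have h := isDist_dist (ι := ι) (symFam_mod (M := M) (by omega) hA hf) (card_supp_le hA hn)
  refine ⟨∑ V, dist (supp Q (.mod k c f a)) (fun i => supp Q (f i))
    (fun i κ => wt (val Q (f i) κ) (c i)) ι V, ?_⟩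
  rw [val, supp_mod c f _ a]
  exact ⟨_, h, rfl⟩

/-- a counting gate has one value -/
lemma value_unique {k : ℕ} {c : Fin k → ZMod m}
    {f : Fin k → Fm m (Atom L n)} {a b : ZMod m} {ι : Fin n → M}
    (h1 : val Q (.mod k c f a) ι) (h2 : val Q (.mod k c f b) ι) : a = b := by
  rw [val] at h1 h2
  obtain ⟨H, h3, h4⟩ := h1
  obtain ⟨H', h5, h6⟩ := h2
  rw [supp_mod c f b a] at h5
  rw [← h4, ← h6, h3.unique h5]

/-- the value of a counting gate in terms of a design -/
lemma val_mod_iff {r k d e : ℕ} {c : Fin k → ZMod m}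
    {f : Fin k → Fm m (Atom L n)} {a : ZMod m} (hn : 3 * r + 2 ≤ Q.card)
    (hA : Nice Q r (.mod k c f a)) (hf : ∀ i, Nice Q r (f i)) {T : Finset (Fin n)}
    {ι : Fin n → M} (D : Design T ι d e)
    (hd : ∀ e' ≤ e, (((d + e').choose d : ℕ) : ZMod m) = 1)
    (hT : supp Q (.mod k c f a) ⊆ T) (he : r ≤ e) :
    val Q (.mod k c f a) ι ↔
      ∑ X ∈ D.Y.powersetCard d, ∑ i, wt (val Q (f i) (D.κ X)) (c i) = a := by
  have hfam := symFam_mod (M := M) (by omega) hA hf
  have h := isDist_dist (ι := ι) hfam (card_supp_le hA hn)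
  have h1 := sum_design D hd hfam.base hT hfam.card h ∅ (by
    rw [Finset.empty_inter, Finset.card_empty]; omega)
  have h2 : ∑ X ∈ D.Y.powersetCard d, ∑ i, wt (val Q (f i) (D.κ X)) (c i) =
      ∑ V, dist (supp Q (.mod k c f a)) (fun i => supp Q (f i))
        (fun i κ => wt (val Q (f i) κ) (c i)) ι V := by
    rw [← h1]
    exact Finset.sum_congr rfl fun X _ => (if_pos (Finset.disjoint_empty_right X)).symm
  rw [h2, val]
  constructor
  · rintro ⟨H, h3, h4⟩
    rw [h3.unique h] at h4
    exact h4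
  · intro h3
    exact ⟨_, h, h3⟩

end

end Pool.Agent.Lib.MP_e81270_lc_Mod
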