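import Pool.Agent.Lib.MP_e81270_lc_Mod.Range

/-!
# The rules are sound for the values in a larger structure
-/

set_option autoImplicit false
set_option linter.unusedSectionVars false

namespace Pool.Agent.Lib.MP_e81270_lc_Mod

open FirstOrder Equiv Equiv.Perm

section
variable {L : FirstOrder.Language.{0, 0}} {m n : ℕ} {Q : Finset (Fin n)} {M : Type}
  [L.Structure M] [Fintype M] [DecidableEq M] {r : ℕ} (hM : n ≤ Fintype.card M)

lemma valid_middle {A : Fm m (Atom L n)} {Γ : List (Fm m (Atom L n))} (h1 : A ∈ Γ)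
    (h2 : .neg A ∈ Γ) : Valid Q M Γ := by
  refine valid_of_val fun ι hι => ?_
  by_cases h : val Q A ι
  · exact ⟨A, h1, h⟩
  · exact ⟨.neg A, h2, h⟩

include hM

lemma valid_weak (hn : 4 * r + 2 ≤ Q.card) {Γ Δ : List (Fm m (Atom L n))}
    (hΓ : NiceLine Q r Γ) (hΔ : NiceLine Q r Δ) (hv : Valid Q M Γ) (hs : Γ ⊆ Δ) :
    Valid Q M Δ := by
  intro ι hι
  have h1 := hΔ.self.1
  obtain ⟨κ, h3, h4, A, hA, h5⟩ := use_line hM hΓ hv hι (supp Q (disj Δ)) (by omega)
    (by omega)
  rw [val_disj]
  exact ⟨κ, h3, h4, A, hs hA, h5⟩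

lemma valid_cut (hn : 4 * r + 2 ≤ Q.card) {A : Fm m (Atom L n)}
    {Γ : List (Fm m (Atom L n))}
    (h1 : NiceLine Q r (A :: Γ)) (h2 : NiceLine Q r (.neg A :: Γ)) (hΓ : NiceLine Q r Γ)
    (hv1 : Valid Q M (A :: Γ)) (hv2 : Valid Q M (.neg A :: Γ)) : Valid Q M Γ := by
  intro ι hι
  by_contra hcon
  have c1 := hΓ.self.1
  have c2 := (h1.mem List.mem_cons_self).1
  have c3 := union_inter_card_le (Q := Q) (supp Q (disj Γ)) (supp Q A)
  have key : ∀ κ : Fin n → M, Function.Injective κ →
      (∀ x ∈ supp Q (disj Γ) ∪ supp Q A, κ x = ι x) → ∀ B ∈ Γ, ¬ val Q B κ := by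
    intro κ hκ h B hB hvB
    apply hcon
    rw [val_disj]
    exact ⟨κ, hκ, fun x hx => h x (Finset.mem_union_left _ hx), B, hB, hvB⟩
  obtain ⟨κ, k1, k2, B, hB, k3⟩ := use_line hM h1 hv1 hι (supp Q (disj Γ) ∪ supp Q A)
    (by omega) (by omega)
  obtain ⟨κ', k1', k2', B', hB', k3'⟩ := use_line hM h2 hv2 hι (supp Q (disj Γ) ∪ supp Q A)
    (by omega) (by omega)
  rcases List.mem_cons.1 hB with hB | hB
  · rcases List.mem_cons.1 hB' with hB' | hB'
    · subst hB
      subst hB'
      rw [val, val_loc (by omega) (ι' := ι)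
        (fun x hx => k2' x (Finset.mem_union_right _ hx))] at k3'
      rw [val_loc (by omega) (ι' := ι) (fun x hx => k2 x (Finset.mem_union_right _ hx))] at k3
      exact k3' k3
    · exact key κ' k1' k2' B' hB' k3'
  · exact key κ k1 k2 B hB k3

lemma valid_orIntro (hn : 4 * r + 2 ≤ Q.card) {k : ℕ} {f : Fin k → Fm m (Atom L n)}
    {Γ : List (Fm m (Atom L n))} (i : Fin k) (h1 : NiceLine Q r (f i :: Γ))
    (hΔ : NiceLine Q r (.or k f :: Γ)) (hv : Valid Q M (f i :: Γ)) :
    Valid Q M (.or k f :: Γ) := by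
  intro ι hι
  have c1 := hΔ.self.1
  obtain ⟨κ, k1, k2, B, hB, k3⟩ := use_line hM h1 hv hι (supp Q (disj (.or k f :: Γ)))
    (by omega) (by omega)
  rw [val_disj]
  rcases List.mem_cons.1 hB with hB | hB
  · subst hB
    exact ⟨κ, k1, k2, .or k f, List.mem_cons_self, κ, k1, fun _ _ => rfl, i, k3⟩
  · exact ⟨κ, k1, k2, B, List.mem_cons_of_mem _ hB, k3⟩

lemma valid_norIntro (hn : 4 * r + 2 ≤ Q.card) {k : ℕ} {f : Fin k → Fm m (Atom L n)}
    {Γ : List (Fm m (Atom L n))} (h1 : ∀ i, NiceLine Q r (.neg (f i) :: Γ))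
    (hΔ : NiceLine Q r (.neg (.or k f) :: Γ)) (hv : ∀ i, Valid Q M (.neg (f i) :: Γ)) :
    Valid Q M (.neg (.or k f) :: Γ) := by
  intro ι hι
  by_contra hcon
  have c1 := hΔ.self.1
  have key : ∀ κ : Fin n → M, Function.Injective κ →
      (∀ x ∈ supp Q (disj (.neg (.or k f) :: Γ)), κ x = ι x) →
      ∀ B ∈ .neg (.or k f) :: Γ, ¬ val Q B κ := by
    intro κ hκ h B hB hvB
    apply hcon
    rw [val_disj]
    exact ⟨κ, hκ, h, B, hB, hvB⟩
  have hor : Nice Q r (.or k f) := hΔ _ (sub_disj List.mem_cons_self (.neg (.refl _)))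
  have hf : ∀ i, Nice Q r (f i) := fun i =>
    hΔ _ (sub_disj List.mem_cons_self (.neg (.or i (.refl _))))
  have h3 := key ι hι (fun _ _ => rfl) _ List.mem_cons_self
  rw [val, not_not] at h3
  obtain ⟨κ, k1, k2, j, k3⟩ := exchange hM hor hf hι h3
    (supp Q (disj (.neg (.or k f) :: Γ))) (by omega) (by omega)
  have c2 := (hf j).1
  have c3 := union_inter_card_le (Q := Q) (supp Q (disj (.neg (.or k f) :: Γ))) (supp Q (f j))
  obtain ⟨κ', k1', k2', B, hB, k3'⟩ := use_line hM (h1 j) (hv j) k1
    (supp Q (disj (.neg (.or k f) :: Γ)) ∪ supp Q (f j)) (by omega) (by omega)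
  rcases List.mem_cons.1 hB with hB | hB
  · subst hB
    rw [val, val_loc (by omega) (ι' := κ) (fun x hx => k2' x (Finset.mem_union_right _ hx))]
      at k3'
    exact k3' k3
  · refine key κ' k1' ?_ B (List.mem_cons_of_mem _ hB) k3'
    intro x hx
    rw [k2' x (Finset.mem_union_left _ hx), k2 x (Finset.mem_union_right _ hx)]

lemma valid_dneg (hn : 4 * r + 2 ≤ Q.card) {A : Fm m (Atom L n)}
    {Γ : List (Fm m (Atom L n))}
    (h1 : NiceLine Q r (A :: Γ)) (hΔ : NiceLine Q r (.neg (.neg A) :: Γ))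
    (hv : Valid Q M (A :: Γ)) : Valid Q M (.neg (.neg A) :: Γ) := by
  intro ι hι
  have c1 := hΔ.self.1
  obtain ⟨κ, k1, k2, B, hB, k3⟩ := use_line hM h1 hv hι (supp Q (disj (.neg (.neg A) :: Γ)))
    (by omega) (by omega)
  rw [val_disj]
  rcases List.mem_cons.1 hB with hB | hB
  · subst hB
    refine ⟨κ, k1, k2, .neg (.neg B), List.mem_cons_self, ?_⟩
    rw [val, val, not_not]
    exact k3
  · exact ⟨κ, k1, k2, B, List.mem_cons_of_mem _ hB, k3⟩

omit hM in
lemma subst_rename {V : Type} {e : ℕ} (E : Fin e → Fm m V) (A : Fm m V) :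
    subst E (A.rename .inl) = A := by
  induction A with
  | var x => rfl
  | neg A ih => simp only [Fm.rename, subst, ih]
  | or k f ih => simp only [Fm.rename, subst, ih]
  | mod k c f a ih => simp only [Fm.rename, subst, ih]

end

section
variable {L : FirstOrder.Language.{0, 0}} {m n d r : ℕ} [NeZero m] {Q : Finset (Fin n)}
  {M : Type} [L.Structure M] [Fintype M] [DecidableEq M]

/-- all lines of a derivation hold -/
theorem valid_of_derivation (hM : Fintype.card M = n + d) (hn : 5 * r + 2 ≤ Q.card)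
    (hd : ∀ e' ≤ 2 * r, (((d + e').choose d : ℕ) : ZMod m) = 1) (hm : 2 * m ≤ Q.card) {e : ℕ}
    {Ax : Fm m (Atom L n)}
    {D : Fin e → Fm m (Atom L n ⊕ Fin e)} {E : Fin e → Fm m (Atom L n)}
    {P : List (List (Fm m (Atom L n ⊕ Fin e)))} (hP : IsDerivation Ax D P)
    (hE : ∀ i, E i = subst E (D i)) (hnice : ∀ Γ ∈ P, NiceLine Q r (Γ.map (subst E)))
    (hAx : NiceLine Q r [Ax] → Valid Q M [Ax]) :
    ∀ Γ ∈ P, Valid Q M (Γ.map (subst E)) := by
  have hM' : n ≤ Fintype.card M := by omega
  have hn' : 4 * r + 2 ≤ Q.card := by omega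
  induction hP with
  | nil => intro Γ h; exact absurd h List.not_mem_nil
  | @cons P Γ hP hstep ih =>
    have ih := ih (fun Δ hΔ => hnice Δ (List.mem_cons_of_mem _ hΔ))
    have hn1 : ∀ {Δ}, Δ ∈ P → NiceLine Q r (Δ.map (subst E)) :=
      fun {Δ} hΔ => hnice Δ (List.mem_cons_of_mem _ hΔ)
    have hΓ := hnice Γ List.mem_cons_self
    intro Δ hΔ
    rcases List.mem_cons.1 hΔ with hΔ | hΔ
    swap
    · exact ih Δ hΔ
    subst hΔ
    cases hstep with
    | ax =>
      rw [List.map_singleton, subst_rename] at hΓ ⊢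
      exact hAx hΓ
    | extLeft i =>
      apply valid_middle (A := E i)
      · simp [hE i, subst]
      · simp [subst]
    | extRight i =>
      apply valid_middle (A := E i)
      · simp [subst]
      · simp [subst, ← hE i]
    | middle A =>
      apply valid_middle (A := subst E A)
      · simp
      · simp [subst]
    | weak h1 h2 => exact valid_weak hM' hn' (hn1 h1) hΓ (ih _ h1) (List.map_subset _ h2)
    | @cut A Γ' h1 h2 =>
      have a1 := hn1 h1
      have a2 := hn1 h2
      have b1 := ih _ h1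
      have b2 := ih _ h2
      rw [List.map_cons] at a1 a2 b1 b2
      rw [subst] at a2 b2
      exact valid_cut hM' hn' a1 a2 hΓ b1 b2
    | @orIntro k f Γ' i h1 =>
      have a1 := hn1 h1
      have b1 := ih _ h1
      rw [List.map_cons] at a1 b1 hΓ ⊢
      rw [subst] at hΓ ⊢
      exact valid_orIntro (f := fun i => subst E (f i)) hM' hn' i a1 hΓ b1
    | @norIntro k f Γ' h1 =>
      have a1 : ∀ i, NiceLine Q r (.neg (subst E (f i)) :: Γ'.map (subst E)) := by
        intro i
        have := hn1 (h1 i)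
        rw [List.map_cons, subst] at this
        exact this
      have b1 : ∀ i, Valid Q M (.neg (subst E (f i)) :: Γ'.map (subst E)) := by
        intro i
        have := ih _ (h1 i)
        rw [List.map_cons, subst] at this
        exact this
      rw [List.map_cons, subst, subst] at hΓ ⊢
      exact valid_norIntro (f := fun i => subst E (f i)) hM' hn' a1 hΓ b1
    | @dneg A Γ' h1 =>
      have a1 := hn1 h1
      have b1 := ih _ h1
      rw [List.map_cons] at a1 b1 hΓ ⊢
      rw [subst, subst] at hΓ ⊢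
      exact valid_dneg hM' hn' a1 hΓ b1
    | modZero c f =>
      rw [List.map_singleton, subst] at hΓ ⊢
      exact valid_modZero hM hn hd c _ hΓ
    | modTrue c A =>
      rw [List.map_cons, List.map_singleton, subst, subst] at hΓ ⊢
      exact valid_modTrue hM hn hd c _ hΓ
    | modFalse c A =>
      rw [List.map_cons, List.map_singleton, subst] at hΓ ⊢
      exact valid_modFalse hM hn hd c _ hΓ
    | modValue k c f =>
      rw [List.map_ofFn] at hΓ ⊢
      exact valid_modValue hn k c (fun i => subst E (f i)) hΓ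
    | modUnique k c f hab =>
      rw [List.map_cons, List.map_singleton, subst, subst, subst, subst]
      exact valid_modUnique k c (fun i => subst E (f i)) hab
    | modRange k f hk =>
      rw [List.map_ofFn] at hΓ ⊢
      exact valid_modRange hM hn hd hm k (fun i => subst E (f i)) hk hΓ
    | @modAdd k l j σ c c' f g a b =>
      rw [List.map_cons, List.map_cons, List.map_singleton, subst, subst, subst, subst,
        subst] at hΓ ⊢
      have e1 : (fun x => subst E (Sum.elim f g (σ x))) =
          fun x => Sum.elim (fun i => subst E (f i)) (fun i => subst E (g i)) (σ x) := by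
        funext x
        rcases σ x with i | i <;> rfl
      rw [e1] at hΓ ⊢
      exact valid_modAdd hM hn hd σ c c' _ _ a b hΓ
    | @modReplace k l σ c f g a Γ' h1 h2 =>
      have a1 : ∀ i, NiceLine Q r (.neg (subst E (f i)) :: subst E (g (σ i)) ::
          Γ'.map (subst E)) := by
        intro i
        have := hn1 (h1 i)
        rw [List.map_cons, List.map_cons, subst] at this
        exact this
      have b1 : ∀ i, Valid Q M (.neg (subst E (f i)) :: subst E (g (σ i)) ::
          Γ'.map (subst E)) := by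
        intro i
        have := ih _ (h1 i)
        rw [List.map_cons, List.map_cons, subst] at this
        exact this
      have a2 : ∀ i, NiceLine Q r (subst E (f i) :: .neg (subst E (g (σ i))) ::
          Γ'.map (subst E)) := by
        intro i
        have := hn1 (h2 i)
        rw [List.map_cons, List.map_cons, subst] at this
        exact this
      have b2 : ∀ i, Valid Q M (subst E (f i) :: .neg (subst E (g (σ i))) ::
          Γ'.map (subst E)) := by
        intro i
        have := ih _ (h2 i)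
        rw [List.map_cons, List.map_cons, subst] at this
        exact this
      rw [List.map_cons, List.map_cons, subst, subst, subst] at hΓ ⊢
      exact valid_modReplace (f := fun i => subst E (f i)) (g := fun i => subst E (g i))
        hM hn hd σ c a a1 a2 hΓ b1 b2
    | @modSum k j j' l σ τ c f a =>
      rw [List.map_cons, List.map_singleton, subst, subst, subst] at hΓ ⊢
      exact valid_modSum hM hn hd σ τ c (fun i x => subst E (f i x)) a hΓ

theorem not_refutation (hM : Fintype.card M = n + d) (hn : 5 * r + 2 ≤ Q.card)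
    (hd : ∀ e' ≤ 2 * r, (((d + e').choose d : ℕ) : ZMod m) = 1) (hm : 2 * m ≤ Q.card) {e : ℕ}
    {Ax : Fm m (Atom L n)}
    {D : Fin e → Fm m (Atom L n ⊕ Fin e)} {E : Fin e → Fm m (Atom L n)}
    {P : List (List (Fm m (Atom L n ⊕ Fin e)))} (hP : IsRefutation Ax D P)
    (hE : ∀ i, E i = subst E (D i)) (hnice : ∀ Γ ∈ P, NiceLine Q r (Γ.map (subst E)))
    (hAx : NiceLine Q r [Ax] → Valid Q M [Ax]) : False := by
  have h := valid_of_derivation hM hn hd hm hP.1 hE hnice hAx [] hP.2
  have hQ : Q.card ≤ n := by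
    have := Finset.card_le_univ Q
    rwa [Fintype.card_fin] at this
  obtain ⟨ι, hι, _⟩ := exists_inj (M := M) (by omega) (∅ : Finset (Fin n))
    (fun _ => (Fintype.card_pos_iff.1 (by omega : 0 < Fintype.card M)).some)
    (by simp)
  have h1 := h ι hι
  rw [List.map_nil, val_disj] at h1
  obtain ⟨κ, -, -, A, hA, -⟩ := h1
  exact absurd hA List.not_mem_nil

end

end Pool.Agent.Lib.MP_e81270_lc_Mod
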